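import Pool.Agent.TH468.EC.Disj

/-!
# Longer cycles: relators glued to an edge, wheels of three relators glued to an edge
-/

set_option autoImplicit false

namespace Pool.Agent.TH468.EC

open Pool.Agent.H694R4.Law SimpleGraph

variable {Γ V : Type*} [Group Γ] [MulAction Γ V] {t : ℕ → Γ} {b : Bool → V} {X : SimpleGraph V}

/-- two words with the same end, also after each change of the labels that preserves the order -/
structure Pat (t : ℕ → Γ) (b : Bool → V) (M L q0 : ℕ) (s : Bool) (a a2 : ℕ) (α : List ℕ) (c : ℕ)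
    (β : List ℕ) : Prop where
  len : (a :: a2 :: α).length + (c :: β).length = L
  hβ : 2 * (c :: β).length ≤ L
  hα : 2 * (a :: a2 :: α).length ≤ L + 1
  redα : Red (a :: a2 :: α)
  redβ : Red (c :: β)
  hac : a ≠ c
  labα : ∀ i ∈ a :: a2 :: α, i < q0
  labβ : ∀ i ∈ c :: β, i < q0
  map : ∀ g : ℕ → ℕ, (∀ i j, i < j → j < q0 → g i < g j) → (∀ i < q0, g i < M) →
    Wv t b s ((a :: a2 :: α).map g) = Wv t b s ((c :: β).map g)

theorem mono_inj {g : ℕ → ℕ} {q0 : ℕ} (hg : ∀ i j, i < j → j < q0 → g i < g j) {i j : ℕ}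
    (hi : i < q0) (hj : j < q0) (hij : i ≠ j) : g i ≠ g j := by
  rcases Nat.lt_or_gt_of_ne hij with h | h
  · exact (hg i j h hj).ne
  · exact (hg j i h hi).ne'

theorem Pat.rl {M L q0 : ℕ} {s : Bool} {a a2 c : ℕ} {α β : List ℕ}
    (P : Pat t b M L q0 s a a2 α c β) (g : ℕ → ℕ) (hg : ∀ i j, i < j → j < q0 → g i < g j)
    (hM : ∀ i < q0, g i < M) :
    Rl t b M L s (g a :: g a2 :: α.map g) (g c :: β.map g) := by
  have e1 := P.len
  have e2 := P.hα
  have e3 := P.hβ
  have ha := P.labα a (by simp)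
  have hc := P.labβ c (by simp)
  simp only [List.length_cons] at e1 e2 e3
  refine ⟨?_, ?_, ?_, ?_, ?_, ?_, ?_, ?_, ?_, ?_, ?_⟩
  · simp only [List.length_cons, List.length_map]
    omega
  · simp only [List.length_cons, List.length_map]
    omega
  · simp only [List.length_cons, List.length_map]
    omega
  · exact red_map (f := g) P.redα fun i _ j hj hij => hg i j hij (P.labα j hj)
  · exact red_map (f := g) P.redβ fun i _ j hj hij => hg i j hij (P.labβ j hj)
  · simpa using mono_inj hg ha hc P.hac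
  · intro i hi
    have hi' : i ∈ (a :: a2 :: α).map g := hi
    obtain ⟨j, hj, rfl⟩ := List.mem_map.mp hi'
    exact hM j (P.labα j hj)
  · intro i hi
    have hi' : i ∈ (c :: β).map g := hi
    obtain ⟨j, hj, rfl⟩ := List.mem_map.mp hi'
    exact hM j (P.labβ j hj)
  · exact P.map g hg hM
  · simp
  · simp

/-- the state: a path of length `n` from the base vertex to `y` whose first edge has the label
`z` -/
def St (X : SimpleGraph V) (t : ℕ → Γ) (b : Bool → V) (s : Bool) (y : V) (n z : ℕ) : Prop :=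
  1 ≤ n ∧ ∃ p : ℕ → V, PathF X n p ∧ p 0 = b s ∧ p 1 = Wv t b s [z] ∧ p n = y

theorem splice {n m : ℕ} {p q : ℕ → V} {s : Bool} {y : V} {z' : ℕ} (hn : 1 ≤ n)
    (hp : PathF X n p) (hp0 : p 0 = b s) (hpn : p n = y) (hm : 1 ≤ m) (hq : PathF X m q)
    (hq0 : q 0 = b s) (hq1 : q 1 = Wv t b s [z']) (hqm : q m = p 1)
    (hav : ∀ i, 1 ≤ i → i < m → ∀ j ≤ n, q i ≠ p j) : St X t b s y (m + (n - 1)) z' := by
  refine ⟨by omega, cat m q (fun i => p (i + 1)), PathF.cat hq (hp.shift 1 hn) ?_ ?_, ?_, ?_, ?_⟩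
  · simpa using hqm
  · intro i hi j hj
    rcases Nat.eq_zero_or_pos i with h | h
    · subst h
      rw [hq0, ← hp0]
      exact hp.2 0 (j + 1) (by omega) (by omega)
    · exact hav i h hi _ (by omega)
  · unfold cat
    rw [if_pos (by omega)]
    exact hq0
  · unfold cat
    rw [if_pos (by omega)]
    exact hq1
  · unfold cat
    split_ifs with h
    · have h1 : n = 1 := by omega
      subst h1
      rw [show m + (1 - 1) = m by omega, hqm, hpn]
    · simp only
      rw [show m + (n - 1) - m + 1 = n by omega]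
      exact hpn

theorem card_image_le' {W : Type*} [DecidableEq W] (p : ℕ → W) (n : ℕ) :
    ((Finset.range n).image p).card ≤ n :=
  Finset.card_image_le.trans (by simp)

open Classical in
/-- a relator with a given label, that avoids a finite set -/
theorem one_rel {M L q0 : ℕ} (D : Dt X t b M L) {s : Bool} {a a2 c : ℕ} {α β : List ℕ}
    (P : Pat t b M L q0 s a a2 α c β) (z R : ℕ) (F : Finset V) (hR : (L - 2) * F.card < R)
    (hz : q0 * R ≤ z) (hz2 : z + q0 * R < M) :
    ∃ g : ℕ → ℕ, g a = z ∧ (∀ i j, i < j → j < q0 → g i < g j) ∧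
      (∀ i < q0, z ≤ g i + q0 * R ∧ g i ≤ z + q0 * R) ∧
      Rl t b M L s (g a :: g a2 :: α.map g) (g c :: β.map g) ∧
      ∀ i, 1 ≤ i → i ≤ L - 2 →
        qf t b s (g a :: g a2 :: α.map g) (g c :: β.map g) i ∉ F := by
  have ha := P.labα a (by simp)
  have ha2 := P.labα a2 (by simp)
  have hc := P.labβ c (by simp)
  have haa2 : a ≠ a2 := by
    have := P.redα
    unfold Red at this
    exact (List.isChain_cons_cons.mp this).1
  obtain ⟨g, h1, h2, h3, h4⟩ := lab1 q0 R a z ha hz
  have hrl : ∀ r < R, Rl t b M L s (g r a :: g r a2 :: α.map (g r)) (g r c :: β.map (g r)) :=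
    fun r hr => P.rl (g r) (h2 r hr) (fun i hi => by
      have := (h3 r hr i hi).2
      omega)
  obtain ⟨r, hr, hr2⟩ := pick R F (Finset.Icc 1 (L - 2))
    (fun r i => qf t b s (g r a :: g r a2 :: α.map (g r)) (g r c :: β.map (g r)) i) (by
      intro i hi r hr r' hr' hne
      rw [Finset.mem_Icc] at hi
      have e1 := hrl r hr
      have e2 := hrl r' hr'
      have e3 := h4 r hr r' hr' hne a2 ha2 haa2.symm
      have e4 := h4 r hr r' hr' hne c hc P.hac.symm
      rw [h1 r hr] at e1 ⊢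
      rw [h1 r' hr'] at e2 ⊢
      exact Rl.ne D e1 e2 e3 e4 (by simp) i hi.1 hi.2) (by
      rw [Nat.card_Icc]
      simpa using hR)
  refine ⟨g r, h1 r hr, h2 r hr, h3 r hr, hrl r hr, fun i hi hi2 => ?_⟩
  exact hr2 i (Finset.mem_Icc.mpr ⟨hi, hi2⟩)

open Classical in
/-- one relator glued to the first edge -/
theorem step1 {M L q0 : ℕ} (D : Dt X t b M L) {s : Bool} {a a2 c : ℕ} {α β : List ℕ}
    (P : Pat t b M L q0 s a a2 α c β) {y : V} {n z : ℕ} (R : ℕ) (hR : (L - 2) * (n + 1) < R)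
    (hz : q0 * R ≤ z) (hz2 : z + q0 * R < M) (hSt : St X t b s y n z) :
    ∃ z', St X t b s y (n + (L - 2)) z' ∧ z ≤ z' + q0 * R ∧ z' ≤ z + q0 * R := by
  obtain ⟨hn, p, hp, hp0, hp1, hpn⟩ := hSt
  have e1 := P.len
  simp only [List.length_cons] at e1
  obtain ⟨g, g1, g2, g3, g4, g5⟩ := one_rel D P z R ((Finset.range (n + 1)).image p)
    (lt_of_le_of_lt (Nat.mul_le_mul_left _ (card_image_le' p (n + 1))) hR) hz hz2
  refine ⟨g c, ?_, (g3 c (P.labβ c (by simp))).1, (g3 c (P.labβ c (by simp))).2⟩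
  have h1 := splice (t := t) (X := X) (z' := g c) hn hp hp0 hpn (m := L - 1) (by omega)
    (g4.path D) (qf_zero s g4.hβ1) g4.qf_one (by rw [g4.qf_last, g1, hp1]) (by
      intro i hi hi2 j hj he
      exact g5 i hi (by omega) (by
        rw [Finset.mem_image]
        exact ⟨j, Finset.mem_range.mpr (by omega), he.symm⟩))
  rw [show L - 1 + (n - 1) = n + (L - 2) by omega] at h1
  exact h1

open Classical in
/-- two relators at the base vertex, with a new common label, between two given labels -/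
theorem close1 {M L q0 : ℕ} (D : Dt X t b M L) {s : Bool} {a a2 c m : ℕ} {α β : List ℕ}
    (P : Pat t b M L q0 s a a2 α c (m :: β)) (z1 z2 K R : ℕ) (hz : z1 ≠ z2)
    (hK1 : z1 ≤ z2 + K) (hK2 : z2 ≤ z1 + K) (hroom : q0 * R * (K + 3) + K ≤ z2)
    (hroom2 : z2 + (q0 * R * (K + 3) + K) < M) (F : Finset V) (hR : 2 * (L - 2) * F.card < R) :
    ∃ f : ℕ → V, PathF X (2 * (L - 2)) f ∧ f 0 = Wv t b s [z2] ∧
      f (2 * (L - 2)) = Wv t b s [z1] ∧ ∀ i, 1 ≤ i → i < 2 * (L - 2) → f i ∉ F := by
  have e1 := P.len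
  have e2 := P.hβ
  simp only [List.length_cons] at e1 e2
  have ha := P.labα a (by simp)
  have ha2 := P.labα a2 (by simp)
  have hc := P.labβ c (by simp)
  have hm := P.labβ m (by simp)
  have haa2 : a ≠ a2 := by
    have := P.redα
    unfold Red at this
    exact (List.isChain_cons_cons.mp this).1
  have hcm : c ≠ m := by
    have := P.redβ
    unfold Red at this
    exact (List.isChain_cons_cons.mp this).1
  obtain ⟨g, g', h1, h2, h3, h4, h5⟩ := lab2 q0 R a c z1 z2 K ha hc P.hac hz hK1 hK2 hroom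
  have hrl : ∀ r < R, Rl t b M L s (g r a :: g r a2 :: α.map (g r))
      (g r c :: (m :: β).map (g r)) := fun r hr => P.rl (g r) (fun i j hij hj =>
        (h2 r hr i j hij hj).1) (fun i hi => by
      have := (h3 r hr i hi).1
      omega)
  have hrl' : ∀ r < R, Rl t b M L s (g' r a :: g' r a2 :: α.map (g' r))
      (g' r c :: (m :: β).map (g' r)) := fun r hr => P.rl (g' r) (fun i j hij hj =>
        (h2 r hr i j hij hj).2) (fun i hi => by
      have := (h3 r hr i hi).2
      omega)
  obtain ⟨r, hr, hr2⟩ := pick R F ((Finset.univ : Finset Bool) ×ˢ Finset.Icc 1 (L - 2))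
    (fun r x => if x.1 then
        qf t b s (g r a :: g r a2 :: α.map (g r)) (g r c :: (m :: β).map (g r)) x.2
      else qf t b s (g' r a :: g' r a2 :: α.map (g' r)) (g' r c :: (m :: β).map (g' r)) x.2) (by
      rintro ⟨x, i⟩ hi r hr r' hr' hne
      rw [Finset.mem_product, Finset.mem_Icc] at hi
      obtain ⟨-, hi⟩ := hi
      have e3 := h4 r hr r' hr' hne a2 ha2 haa2.symm
      have e4 := h4 r hr r' hr' hne c hc P.hac.symm
      cases x
      · have k1 := hrl' r hr
        have k2 := hrl' r' hr'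
        simp only [Bool.false_eq_true, if_false]
        rw [(h1 r hr).2.1] at k1 ⊢
        rw [(h1 r' hr').2.1] at k2 ⊢
        exact Rl.ne D k1 k2 e3.2 e4.2 (by simp) i hi.1 hi.2
      · have k1 := hrl r hr
        have k2 := hrl r' hr'
        simp only [if_true]
        rw [(h1 r hr).1] at k1 ⊢
        rw [(h1 r' hr').1] at k2 ⊢
        exact Rl.ne D k1 k2 e3.1 e4.1 (by simp) i hi.1 hi.2) (by
      rw [Finset.card_product, Nat.card_Icc]
      simpa using hR)
  have R2 := hrl r hr
  have R3 := hrl' r hr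
  have hq2 : ∀ i, 1 ≤ i → i ≤ L - 2 →
      qf t b s (g r a :: g r a2 :: α.map (g r)) (g r c :: (m :: β).map (g r)) i ∉ F := by
    intro i hi hi2
    have := hr2 (true, i) (Finset.mem_product.mpr ⟨Finset.mem_univ _, Finset.mem_Icc.mpr
      ⟨hi, hi2⟩⟩)
    simpa using this
  have hq3 : ∀ i, 1 ≤ i → i ≤ L - 2 →
      qf t b s (g' r a :: g' r a2 :: α.map (g' r)) (g' r c :: (m :: β).map (g' r)) i ∉ F := by
    intro i hi hi2
    have := hr2 (false, i) (Finset.mem_product.mpr ⟨Finset.mem_univ _, Finset.mem_Icc.mpr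
      ⟨hi, hi2⟩⟩)
    simpa using this
  obtain ⟨k1, k2, k3⟩ := h1 r hr
  have hdisj : ∀ i j, 1 ≤ i → i ≤ L - 1 → 1 ≤ j → j ≤ L - 1 → ¬ (i = 1 ∧ j = 1) →
      qf t b s (g r a :: g r a2 :: α.map (g r)) (g r c :: (m :: β).map (g r)) i ≠
      qf t b s (g' r a :: g' r a2 :: α.map (g' r)) (g' r c :: (m :: β).map (g' r)) j := by
    intro i j hi hi2 hj hj2 hij
    have R2' := R2
    rw [k3] at R2' ⊢
    rw [List.map_cons] at R2' R3 ⊢
    rw [List.map_cons]
    exact Rl.disj D R2' R3 (by rw [k1, k2]; exact hz.symm)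
      (h5 r hr m hm hcm.symm) (by simp) i j hi hi2 hj hj2 hij
  refine ⟨cat (L - 2) (fun i => qf t b s (g r a :: g r a2 :: α.map (g r))
    (g r c :: (m :: β).map (g r)) (L - 1 - i)) (fun j => qf t b s
    (g' r a :: g' r a2 :: α.map (g' r)) (g' r c :: (m :: β).map (g' r)) (j + 1)), ?_, ?_, ?_, ?_⟩
  · have p1 := (R2.path D).rev.trunc (L - 2) (by omega)
    have p2 := (R3.path D).shift 1 (by omega)
    rw [show L - 1 - 1 = L - 2 by omega] at p2
    have p3 := PathF.cat p1 p2 (by
      rw [show L - 1 - (L - 2) = 1 by omega, R2.qf_one, zero_add, R3.qf_one, k3]) (by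
      intro i hi j hj
      exact hdisj _ _ (by omega) (by omega) (by omega) (by omega) (by omega))
    rw [show 2 * (L - 2) = L - 2 + (L - 2) by omega]
    exact p3
  · unfold cat
    rw [if_pos (by omega)]
    simp only [Nat.sub_zero]
    rw [R2.qf_last, k1]
  · unfold cat
    rw [if_neg (by omega)]
    simp only
    rw [show 2 * (L - 2) - (L - 2) + 1 = L - 1 by omega, R3.qf_last, k2]
  · intro i hi hi2
    unfold cat
    split_ifs with h
    · exact hq2 _ (by omega) (by omega)
    · exact hq3 _ (by omega) (by omega)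

theorem PathF.smul (haut : ∀ (g : Γ) (a c : V), X.Adj a c → X.Adj (g • a) (g • c)) {n : ℕ}
    {p : ℕ → V} (hp : PathF X n p) (g : Γ) : PathF X n (fun i => g • p i) :=
  ⟨fun i hi => haut g _ _ (hp.1 i hi), fun i j hij hj he =>
    hp.2 i j hij hj (smul_left_cancel g he)⟩

open Classical in
theorem close {M L q0 : ℕ} (D : Dt X t b M L) {s : Bool} {a a2 c m : ℕ} {α β : List ℕ}
    (P : Pat t b M L q0 s a a2 α c (m :: β)) (z1 z2 K R : ℕ) (hz : z1 ≠ z2)
    (hK1 : z1 ≤ z2 + K) (hK2 : z2 ≤ z1 + K) (hroom : q0 * R * (K + 3) + K ≤ z2)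
    (hroom2 : z2 + (q0 * R * (K + 3) + K) < M) (g : Γ) (F : Finset V)
    (hR : 2 * (L - 2) * F.card < R) :
    ∃ f : ℕ → V, PathF X (2 * (L - 2)) f ∧ f 0 = g • Wv t b s [z2] ∧
      f (2 * (L - 2)) = g • Wv t b s [z1] ∧ ∀ i, 1 ≤ i → i < 2 * (L - 2) → f i ∉ F := by
  obtain ⟨f, h1, h2, h3, h4⟩ := close1 D P z1 z2 K R hz hK1 hK2 hroom hroom2
    (F.image (fun x => g⁻¹ • x))
    (lt_of_le_of_lt (Nat.mul_le_mul_left _ Finset.card_image_le) hR)
  refine ⟨fun i => g • f i, h1.smul D.aut g, by simp only [h2], by simp only [h3], ?_⟩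
  intro i hi hi2 hF
  apply h4 i hi hi2
  rw [Finset.mem_image]
  exact ⟨_, hF, by simp⟩

open Classical in
/-- a wheel of three relators glued to the first edge -/
theorem wheel {M L q0 : ℕ} (D : Dt X t b M L) {s : Bool} {a a2 a3 c m : ℕ} {α β : List ℕ}
    (P : Pat t b M L q0 s a a2 (a3 :: α) c (m :: β)) {y : V} {n z : ℕ} (R R' : ℕ)
    (hR : (L - 2) * (n + 1) < R) (hR' : 2 * (L - 2) * (n + 1 + L) < R')
    (hz : q0 * R + (q0 * R' * (2 * (q0 * R) + 3) + 2 * (q0 * R)) ≤ z)
    (hz2 : z + (q0 * R + (q0 * R' * (2 * (q0 * R) + 3) + 2 * (q0 * R))) < M)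
    (hSt : St X t b s y n z) :
    ∃ z', St X t b s y (n + (3 * (L - 2) - 2)) z' ∧ z ≤ z' + q0 * R ∧ z' ≤ z + q0 * R := by
  obtain ⟨hn, p, hp, hp0, hp1, hpn⟩ := hSt
  have e1 := P.len
  have e2 := P.hβ
  simp only [List.length_cons] at e1 e2
  obtain ⟨g, g1, g2, g3, g4, g5⟩ := one_rel D P z R ((Finset.range (n + 1)).image p)
    (lt_of_le_of_lt (Nat.mul_le_mul_left _ (card_image_le' p (n + 1))) hR) (by omega) (by omega)
  have ha2 := P.labα a2 (by simp)
  have ha3 := P.labα a3 (by simp)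
  have ha23 : a2 ≠ a3 := by
    have := P.redα
    unfold Red at this
    exact (List.isChain_cons_cons.mp (List.isChain_cons_cons.mp this).2).1
  refine ⟨g c, ?_, (g3 c (P.labβ c (by simp))).1, (g3 c (P.labβ c (by simp))).2⟩
  set Q := qf t b s (g a :: g a2 :: (a3 :: α).map g) (g c :: (m :: β).map g) with hQ
  have b2 := g3 a2 ha2
  have b3 := g3 a3 ha3
  obtain ⟨f, f1, f2, f3, f4⟩ := close D P (g a2) (g a3) (2 * (q0 * R)) R'
    (mono_inj g2 ha2 ha3 ha23) (by omega) (by omega) (by omega) (by omega)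
    (val t s [g a, g a2]) ((Finset.range (n + 1)).image p ∪ (Finset.range L).image Q)
    (lt_of_le_of_lt (Nat.mul_le_mul_left _ ((Finset.card_union_le _ _).trans
      (Nat.add_le_add (card_image_le' p (n + 1)) (card_image_le' Q L)))) hR')
  have hQp := g4.path D
  rw [← hQ] at hQp
  have hQlast : Q (L - 1) = Wv t b s [z] := by
    rw [hQ, g4.qf_last, g1]
  have hval2 : ∀ x : ℕ, val t s [g a, g a2] • Wv t b s [x] = Wv t b s [g a, g a2, x] := by
    intro x
    have h := Wv_append (t := t) (b := b) s [g a, g a2] [x]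
    have hs : sd s [g a, g a2].length = s := sd_even _ _ (by simp)
    rw [hs] at h
    exact h.symm
  have hQ3 : Q (L - 3) = f 0 := by
    rw [f2, hval2, hQ]
    unfold qf
    simp only [List.length_cons, List.length_map, List.map_cons]
    rw [if_neg (by omega), show α.length + 1 + 1 + 1 + (β.length + 1 + 1) - (L - 3) = 3 by omega]
    rfl
  have hQl : Q (L - 1) = f (2 * (L - 2)) := by
    rw [f3, hval2, hQlast, ← g1]
    have h := Wv_append (t := t) (b := b) s [g a] [g a2, g a2]
    rw [List.singleton_append] at h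
    rw [h, Wv_singleton, Wv_cons, Wv_singleton, vl_not, Bool.not_not, smul_inv_smul, val_cons,
      val_nil, mul_one]
    rfl
  have hcat := PathF.cat (hQp.trunc (L - 3) (by omega)) f1 hQ3 (by
    intro i hi j hj
    rcases Nat.eq_zero_or_pos j with h | h
    · subst h
      rw [← hQ3]
      exact hQp.2 i (L - 3) hi (by omega)
    · by_cases h2 : j = 2 * (L - 2)
      · subst h2
        rw [← hQl]
        exact hQp.2 i (L - 1) (by omega) le_rfl
      · intro he
        apply f4 j h (by omega)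
        rw [← he, Finset.mem_union]
        right
        rw [Finset.mem_image]
        exact ⟨i, Finset.mem_range.mpr (by omega), rfl⟩)
  have h1 := splice (t := t) (X := X) (z' := g c) hn hp hp0 hpn
    (m := L - 3 + 2 * (L - 2)) (by omega) hcat (by
      unfold cat
      rw [if_pos (by omega)]
      exact qf_zero s g4.hβ1) (by
      unfold cat
      rw [if_pos (by omega)]
      exact g4.qf_one) (by
      unfold cat
      rw [if_neg (by omega), Nat.add_sub_cancel_left, ← hQl, hQlast, hp1]) (by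
      intro i hi hi2 j hj he
      have hmem : p j ∈ (Finset.range (n + 1)).image p := by
        rw [Finset.mem_image]
        exact ⟨j, Finset.mem_range.mpr (by omega), rfl⟩
      unfold cat at he
      split_ifs at he with h
      · exact g5 i hi (by omega) (by rw [he]; exact hmem)
      · exact f4 (i - (L - 3)) (by omega) (by omega) (by
          rw [he, Finset.mem_union]
          exact Or.inl hmem))
  rw [show L - 3 + 2 * (L - 2) + (n - 1) = n + (3 * (L - 2) - 2) by omega] at h1
  exact h1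

end Pool.Agent.TH468.EC
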