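import Pool.Agent.H694R4.Law.P1
import Pool.Agent.H694R4.Law.Ex
import Pool.Agent.TH468.EC.Step

/-!
# Homogeneous sequences and closed words of minimal length (vertices instead of group elements)
-/

set_option autoImplicit false

namespace Pool.Agent.TH468.EC

open Pool.Agent.H694R4.Law SimpleGraph

/-- homogeneous sequences, for closed walks -/
def HomoV {Γ V : Type*} [Group Γ] [MulAction Γ V] (t : ℕ → Γ) (b : Bool → V) (M q : ℕ) : Prop :=
  ∀ (s : Bool) (u : List ℕ) (f : ℕ → ℕ), u.length ≤ q → (∀ i ∈ u, i < M) →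
    (∀ i ∈ u, f i < M) → (∀ i ∈ u, ∀ j ∈ u, i < j → f i < f j) →
    (Wv t b s u = b s ↔ Wv t b s (u.map f) = b s)

theorem Wv_map {Γ V : Type*} [Group Γ] [MulAction Γ V] {b : Bool → V} (t : ℕ → Γ) (g : ℕ → ℕ)
    (s : Bool) (P : List ℕ) : Wv t b s (P.map g) = Wv (fun i => t (g i)) b s P := by
  rw [Wv, Wv, P1_val_map, List.length_map]

theorem Wv_congr {Γ V : Type*} [Group Γ] [MulAction Γ V] {b : Bool → V} (t t' : ℕ → Γ)
    (s : Bool) (P : List ℕ) (h : ∀ x ∈ P, t x = t' x) : Wv t b s P = Wv t' b s P := by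
  rw [Wv, Wv, P1_val_congr t t' s P h]

theorem p1V (M q : ℕ) : ∃ N : ℕ, ∀ (Γ V : Type) [Group Γ] [MulAction Γ V] (b : Bool → V)
    (T : Finset Γ), N ≤ T.card → ∃ t : ℕ → Γ, (∀ i < M, t i ∈ T) ∧
      (∀ i < M, ∀ j < M, t i = t j → i = j) ∧ HomoV t b M q := by
  classical
  obtain ⟨N, hN⟩ := Pool.Agent.H685R2.DIM.ramsey_gen
    ((Bool × Fin (q + 1) × (Fin q → Fin q)) → Bool) q (M + q)
  refine ⟨N, fun Γ V _ _ b T hT => ?_⟩
  -- enumeration of `T`
  obtain ⟨e, he1, he2⟩ : ∃ e : ℕ → Γ, (∀ i < N, e i ∈ T) ∧
      (∀ i < N, ∀ j < N, e i = e j → i = j) := by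
    refine ⟨fun i => if h : i < T.card then (T.equivFin.symm ⟨i, h⟩ : Γ) else 1, ?_, ?_⟩
    · intro i hi
      simp only []
      rw [dif_pos (by omega)]
      exact (T.equivFin.symm ⟨i, by omega⟩).2
    · intro i hi j hj hij
      simp only [] at hij
      rw [dif_pos (by omega), dif_pos (by omega)] at hij
      have := T.equivFin.symm.injective (Subtype.ext hij)
      simpa using this
  obtain ⟨T', hT'S, hT'c, k, hk⟩ := hN (Finset.range N)
    (fun l => fun x => decide (Wv (fun i => e (l.getD i 0)) b x.1 (P1_pat q x.2.1 x.2.2) = b x.1))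
    (by simp)
  -- the increasing enumeration of `T'`
  obtain ⟨θ, hθ1, hθ2⟩ : ∃ θ : ℕ → ℕ, (∀ i < M + q, θ i ∈ T') ∧
      (∀ i < M + q, ∀ j < M + q, i < j → θ i < θ j) := by
    refine ⟨fun i => if h : i < M + q then T'.orderEmbOfFin hT'c ⟨i, h⟩ else 0, ?_, ?_⟩
    · intro i hi
      simp only []
      rw [dif_pos hi]
      exact Finset.orderEmbOfFin_mem _ _ _
    · intro i hi j hj hij
      simp only []
      rw [dif_pos hi, dif_pos hj]
      exact (T'.orderEmbOfFin hT'c).strictMono hij
  have hθN : ∀ i < M + q, θ i < N := fun i hi => Finset.mem_range.1 (hT'S (hθ1 i hi))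
  have hθinj : ∀ i < M + q, ∀ j < M + q, θ i = θ j → i = j := by
    intro i hi j hj h
    rcases lt_trichotomy i j with h1 | h1 | h1
    · exact absurd h (hθ2 i hi j hj h1).ne
    · exact h1
    · exact absurd h (hθ2 j hj i hi h1).ne'
  refine ⟨fun i => e (θ i), fun i hi => he1 _ (hθN i (by omega)), ?_, ?_⟩
  · intro i hi j hj hij
    exact hθinj i (by omega) j (by omega)
      (he2 _ (hθN i (by omega)) _ (hθN j (by omega)) hij)
  · intro s u f hu1 hu2 hu3 hu4
    set F : List ℕ := u.toFinset.sort (· ≤ ·) with hF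
    have hFmem : ∀ x, x ∈ F ↔ x ∈ u := by
      intro x
      rw [hF, Finset.mem_sort, List.mem_toFinset]
    have hFlen : F.length ≤ q := by
      rw [hF, Finset.length_sort]
      exact le_trans (List.toFinset_card_le u) hu1
    have hFp : F.Pairwise (· < ·) := by
      have := Finset.sortedLT_sort u.toFinset
      exact this.pairwise
    -- general facts on lists of labels
    have key : ∀ G : List ℕ, G.length = F.length → G.Pairwise (· < ·) → (∀ x ∈ G, x < M) →
        (fun x : Bool × Fin (q + 1) × (Fin q → Fin q) => decide (Wv (fun i =>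
          e ((((G ++ List.range' M (q - F.length)).map θ)).getD i 0)) b x.1
            (P1_pat q x.2.1 x.2.2) = b x.1)) = k := by
      intro G hG1 hG2 hG3
      refine hk ((G ++ List.range' M (q - F.length)).map θ) ?_ ?_ ?_
      · rw [List.length_map, List.length_append, List.length_range', hG1]
        omega
      · rw [List.pairwise_map]
        have h1 : (G ++ List.range' M (q - F.length)).Pairwise (· < ·) := by
          rw [List.pairwise_append]
          refine ⟨hG2, List.pairwise_lt_range', ?_⟩
          intro a ha b hb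
          have := hG3 a ha
          rw [List.mem_range'_1] at hb
          omega
        refine h1.imp_of_mem ?_
        intro a b ha hb hab
        refine hθ2 a ?_ b ?_ hab
        · rcases List.mem_append.1 ha with h | h
          · have := hG3 a h; omega
          · rw [List.mem_range'_1] at h; omega
        · rcases List.mem_append.1 hb with h | h
          · have := hG3 b h; omega
          · rw [List.mem_range'_1] at h; omega
      · intro x hx
        obtain ⟨a, ha, rfl⟩ := List.mem_map.1 hx
        refine hθ1 a ?_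
        rcases List.mem_append.1 ha with h | h
        · have := hG3 a h; omega
        · rw [List.mem_range'_1] at h; omega
    have hget : ∀ G : List ℕ, G.length = F.length → ∀ x ∈ u,
        ((G ++ List.range' M (q - F.length)).map θ).getD (F.idxOf x) 0 =
          θ (G.getD (F.idxOf x) 0) := by
      intro G hG x hx
      have h1 : F.idxOf x < F.length := List.idxOf_lt_length_iff.2 ((hFmem x).2 hx)
      have h2 : F.idxOf x < G.length := by omega
      rw [List.getD_eq_getElem _ _ (by simp; omega), List.getD_eq_getElem _ _ h2,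
        List.getElem_map, List.getElem_append_left h2]
    have hgetF : ∀ x ∈ u, F.getD (F.idxOf x) 0 = x := by
      intro x hx
      have h1 : F.idxOf x < F.length := List.idxOf_lt_length_iff.2 ((hFmem x).2 hx)
      rw [List.getD_eq_getElem _ _ h1]
      exact List.getElem_idxOf h1
    have hgetf : ∀ x ∈ u, (F.map f).getD (F.idxOf x) 0 = f x := by
      intro x hx
      have h1 : F.idxOf x < F.length := List.idxOf_lt_length_iff.2 ((hFmem x).2 hx)
      rw [List.getD_eq_getElem _ _ (by rw [List.length_map]; exact h1), List.getElem_map]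
      rw [List.getElem_idxOf h1]
    obtain ⟨n, p, hnp⟩ := P1_exists_pat q (u.map (fun x => F.idxOf x))
      (by rw [List.length_map]; exact hu1) (by
        intro y hy
        obtain ⟨x, hx, rfl⟩ := List.mem_map.1 hy
        have h1 : F.idxOf x < F.length := List.idxOf_lt_length_iff.2 ((hFmem x).2 hx)
        omega)
    have k1 := congrFun (key F rfl hFp (fun x hx => hu2 x ((hFmem x).1 hx))) (s, n, p)
    have k2 := congrFun (key (F.map f) (by rw [List.length_map]) (by
      rw [List.pairwise_map]
      refine hFp.imp_of_mem ?_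
      intro a b ha hb hab
      exact hu4 a ((hFmem a).1 ha) b ((hFmem b).1 hb) hab) (by
      intro x hx
      obtain ⟨y, hy, rfl⟩ := List.mem_map.1 hx
      exact hu3 y ((hFmem y).1 hy))) (s, n, p)
    have k3 := k1.trans k2.symm
    simp only [] at k3
    rw [decide_eq_decide, hnp, Wv_map, Wv_map] at k3
    have v1 : Wv (fun i => e (((F ++ List.range' M (q - F.length)).map θ).getD
        (F.idxOf i) 0)) b s u = Wv (fun i => e (θ i)) b s u := by
      refine Wv_congr _ _ s u fun x hx => ?_
      rw [hget F rfl x hx, hgetF x hx]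
    have v2 : Wv (fun i => e (((F.map f ++ List.range' M (q - F.length)).map θ).getD
        (F.idxOf i) 0)) b s u = Wv (fun i => e (θ (f i))) b s u := by
      refine Wv_congr _ _ s u fun x hx => ?_
      rw [hget (F.map f) (by rw [List.length_map]) x hx, hgetf x hx]
    rw [v1, v2] at k3
    rw [Wv_map]
    exact k3


open Classical in
/-- closed words of minimal length -/
theorem exV {Γ V : Type*} [Group Γ] [MulAction Γ V] {X : SimpleGraph V} (t : ℕ → Γ)
    (b : Bool → V) (M q q0 n1 : ℕ)
    (haut : ∀ (g : Γ) (a c : V), X.Adj a c → X.Adj (g • a) (g • c))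
    (hadj : ∀ (s : Bool) (i : ℕ), i < M → X.Adj (b s) (vl t s i • b (!s)))
    (hinj : ∀ (s : Bool), ∀ i < M, ∀ j < M, vl t s i • b (!s) = vl t s j • b (!s) → i = j)
    (hH : HomoV t b M q) (hq : n1 ≤ q) (hq0 : n1 ≤ q0) (hM : q0 ≤ M)
    (hex : ∃ (s : Bool) (u : List ℕ), u ≠ [] ∧ u.length ≤ n1 ∧ Red u ∧ (∀ i ∈ u, i < q0) ∧
      Wv t b s u = b s) :
    ∃ L, 3 ≤ L ∧ L ≤ n1 ∧ Dt X t b M L ∧ ∃ (s : Bool) (a a2 : ℕ) (α : List ℕ) (c : ℕ)
      (β : List ℕ), Pat t b M L q0 s a a2 α c β := by
  set P : ℕ → Prop := fun n => ∃ (s : Bool) (u : List ℕ), u ≠ [] ∧ u.length = n ∧ Red u ∧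
    (∀ i ∈ u, i < q0) ∧ Wv t b s u = b s with hP
  have hexP : ∃ n, P n := by
    obtain ⟨s, u, h1, _, h3, h4, h5⟩ := hex
    exact ⟨_, s, u, h1, rfl, h3, h4, h5⟩
  obtain ⟨L, hL, hmin⟩ : ∃ n, P n ∧ ∀ j < n, ¬ P j :=
    ⟨Nat.find hexP, Nat.find_spec hexP, fun j hj => Nat.find_min hexP hj⟩
  have hLn1 : L ≤ n1 := by
    obtain ⟨s, u, h1, h2, h3, h4, h5⟩ := hex
    by_contra hcon
    exact hmin _ (by omega) ⟨s, u, h1, rfl, h3, h4, h5⟩
  obtain ⟨s0, u, h1, h2, h3, h4, h5⟩ := hL
  have hL3 : 3 ≤ L := by
    by_contra hcon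
    rcases u with _ | ⟨x, u⟩
    · exact h1 rfl
    · rcases u with _ | ⟨y, u⟩
      · rw [Wv_singleton] at h5
        have h6 := hadj s0 x (by have := h4 x (by simp); omega)
        rw [h5] at h6
        exact h6.ne rfl
      · have h6 : u = [] := by
          simp only [List.length_cons] at h2
          exact List.length_eq_zero_iff.mp (by omega)
        subst h6
        rw [Wv_cons, Wv_singleton, Bool.not_not, smul_eq_iff_eq_inv_smul, ← vl_not] at h5
        have h7 := hinj (!s0) y (by have := h4 y (by simp); omega) x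
          (by have := h4 x (by simp); omega) (by rw [Bool.not_not]; exact h5)
        unfold Red at h3
        exact (List.isChain_cons_cons.mp h3).1 h7.symm
  have hNS : NS t b M L := by
    intro s' W hW1 hW2 hW3 hW4 hW5
    set F := W.toFinset with hF
    set f : ℕ → ℕ := fun i => (F.filter fun j => j < i).card with hf
    have hmono : ∀ i ∈ W, ∀ j ∈ W, i < j → f i < f j := by
      intro i hi j hj hij
      apply Finset.card_lt_card
      rw [Finset.ssubset_iff_of_subset]
      · refine ⟨i, ?_, ?_⟩
        · rw [Finset.mem_filter, hF, List.mem_toFinset]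
          exact ⟨hi, hij⟩
        · simp
      · intro x hx
        rw [Finset.mem_filter] at hx ⊢
        exact ⟨hx.1, hx.2.trans hij⟩
    have hfb : ∀ i ∈ W, f i < q0 := by
      intro i hi
      have h7 : f i < F.card := by
        apply Finset.card_lt_card
        rw [Finset.ssubset_iff_of_subset (Finset.filter_subset _ _)]
        refine ⟨i, ?_, by simp⟩
        rw [hF, List.mem_toFinset]
        exact hi
      have h8 : F.card ≤ W.length := List.toFinset_card_le _
      omega
    have h9 := (hH s' W f (by omega) hW4 (fun i hi => (hfb i hi).trans_le hM) hmono).mp hW5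
    apply hmin W.length (by omega)
    refine ⟨s', W.map f, ?_, by simp, red_map hW3 hmono, ?_, h9⟩
    · intro h10
      exact hW1 (List.map_eq_nil_iff.mp h10)
    · intro i hi
      obtain ⟨j, hj, rfl⟩ := List.mem_map.mp hi
      exact hfb j hj
  refine ⟨L, hL3, hLn1, ⟨haut, hadj, hNS⟩, ?_⟩
  set m := L / 2 with hm
  have hu : u = u.take m ++ u.drop m := (List.take_append_drop m u).symm
  obtain ⟨a, a2, α, hα⟩ : ∃ a a2 α, u.drop m = a :: a2 :: α := by
    have h6 : (u.drop m).length = L - m := by rw [List.length_drop, h2]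
    rcases hd : u.drop m with _ | ⟨a, _ | ⟨a2, α⟩⟩
    · rw [hd] at h6
      simp at h6
      omega
    · rw [hd] at h6
      simp at h6
      omega
    · exact ⟨a, a2, α, rfl⟩
  obtain ⟨β', c, hβ⟩ : ∃ β' c, u.take m = β' ++ [c] := by
    have h6 : (u.take m).length = m := by
      rw [List.length_take, h2]
      omega
    rcases List.eq_nil_or_concat' (u.take m) with h7 | ⟨β', c, h7⟩
    · rw [h7] at h6
      simp at h6
      omega
    · exact ⟨β', c, h7⟩
  have hlα : (a :: a2 :: α).length = L - m := by rw [← hα, List.length_drop, h2]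
  have hlβ : (β' ++ [c]).length = m := by
    rw [← hβ, List.length_take, h2]
    omega
  have hlβ' : (c :: β'.reverse).length = m := by
    rw [← hlβ]
    simp
  have hrev : c :: β'.reverse = (β' ++ [c]).reverse := by simp
  rw [hα, hβ] at hu
  refine ⟨sd s0 m, a, a2, α, c, β'.reverse, ?_, ?_, ?_, ?_, ?_, ?_, ?_, ?_, ?_⟩
  · rw [hlα, hlβ']
    omega
  · rw [hlβ']
    omega
  · rw [hlα]
    omega
  · rw [← hα]
    exact h3.drop m
  · rw [hrev]
    unfold Red at h3 ⊢
    rw [List.isChain_reverse]
    rw [hu] at h3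
    exact h3.left_of_append.imp fun _ _ hh => hh.symm
  · unfold Red at h3
    rw [hu, List.isChain_append] at h3
    exact fun hh => h3.2.2 c (by rw [List.getLast?_concat]; rfl) a (by simp) hh.symm
  · intro i hi
    exact h4 i (by rw [hu]; exact List.mem_append_right _ hi)
  · intro i hi
    rw [hrev, List.mem_reverse] at hi
    exact h4 i (by rw [hu]; exact List.mem_append_left _ hi)
  · intro g hg hgM
    have h6 := (hH s0 u g (by omega) (fun i hi => (h4 i hi).trans_le hM)
      (fun i hi => hgM i (h4 i hi)) (fun i hi j hj hij => hg i j hij (h4 j hj))).mp h5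
    rw [hu, List.map_append, rebase, List.length_map, hlβ] at h6
    rw [h6, hrev, List.map_reverse]

end Pool.Agent.TH468.EC
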