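import Pool.Agent.H694R4.Law.P2m
import Pool.Agent.TH468.EC.Ram

/-!
# All even cycles that are long enough
-/

set_option autoImplicit false

namespace Pool.Agent.TH468.EC

open Pool.Agent.H694R4.Law SimpleGraph

theorem iter1 {Γ V : Type*} [Group Γ] [MulAction Γ V] {t : ℕ → Γ} {b : Bool → V}
    {X : SimpleGraph V} {M L q0 : ℕ} (D : Dt X t b M L) {s : Bool} {a a2 c : ℕ} {α β : List ℕ}
    (P : Pat t b M L q0 s a a2 α c β) {y : V} (hL3 : 3 ≤ L) (N R T z0 : ℕ)
    (hR : (L - 2) * (N + 1) < R) (hT : q0 * R ≤ T) (hz0 : (N + 1) * T ≤ z0)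
    (hM : z0 + (N + 1) * T < M) (h0 : St X t b s y 1 z0) : ∀ j, 1 + j * (L - 2) ≤ N →
    ∃ z, St X t b s y (1 + j * (L - 2)) z ∧ z0 ≤ z + j * T ∧ z ≤ z0 + j * T := by
  intro j
  induction j with
  | zero =>
    intro _
    exact ⟨z0, by simpa using h0, by omega, by omega⟩
  | succ j ih =>
    intro hj
    have e1 : (j + 1) * (L - 2) = j * (L - 2) + (L - 2) := by ring
    obtain ⟨z, h1, h2, h3⟩ := ih (by omega)
    have hjN : j + 1 ≤ N := by
      have : (j + 1) * 1 ≤ (j + 1) * (L - 2) := Nat.mul_le_mul_left _ (by omega)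
      omega
    have e2 : (j + 1) * T + T ≤ (N + 1) * T := by
      have : (j + 1 + 1) * T ≤ (N + 1) * T := Nat.mul_le_mul_right _ (by omega)
      linarith
    have e3 : (j + 1) * T = j * T + T := by ring
    obtain ⟨z', h4, h5, h6⟩ := step1 D P R (lt_of_le_of_lt (Nat.mul_le_mul_left _ (by omega)) hR)
      (by omega) (by omega) h1
    refine ⟨z', ?_, by omega, by omega⟩
    rw [e1, ← add_assoc]
    exact h4

theorem iter2 {Γ V : Type*} [Group Γ] [MulAction Γ V] {t : ℕ → Γ} {b : Bool → V}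
    {X : SimpleGraph V} {M L q0 : ℕ} (D : Dt X t b M L) {s : Bool} {a a2 a3 c m : ℕ}
    {α β : List ℕ} (P : Pat t b M L q0 s a a2 (a3 :: α) c (m :: β)) {y : V} (hL5 : 5 ≤ L)
    (N R R' T z0 j : ℕ) (hR : (L - 2) * (N + 1) < R) (hR' : 2 * (L - 2) * (N + 1 + L) < R')
    (hT : q0 * R + (q0 * R' * (2 * (q0 * R) + 3) + 2 * (q0 * R)) ≤ T) (hz0 : (N + 1) * T ≤ z0)
    (hM : z0 + (N + 1) * T < M) (h0 : St X t b s y 1 z0) : ∀ W,
    1 + j * (L - 2) + W * (3 * (L - 2) - 2) ≤ N →
    ∃ z, St X t b s y (1 + j * (L - 2) + W * (3 * (L - 2) - 2)) z ∧ z0 ≤ z + (j + W) * T ∧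
      z ≤ z0 + (j + W) * T := by
  intro W
  induction W with
  | zero =>
    intro h
    rw [Nat.zero_mul, Nat.add_zero] at h ⊢
    exact iter1 D P (by omega) N R T z0 hR (by omega) hz0 hM h0 j h
  | succ W ih =>
    intro hj
    have e1 : (W + 1) * (3 * (L - 2) - 2) = W * (3 * (L - 2) - 2) + (3 * (L - 2) - 2) := by ring
    obtain ⟨z, h1, h2, h3⟩ := ih (by omega)
    have hjN : j + W + 1 ≤ N := by
      have e4 : j * 1 ≤ j * (L - 2) := Nat.mul_le_mul_left _ (by omega)
      have e5 : (W + 1) * 1 ≤ (W + 1) * (3 * (L - 2) - 2) := Nat.mul_le_mul_left _ (by omega)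
      omega
    have e2 : (j + W + 1) * T + T ≤ (N + 1) * T := by
      have : (j + W + 1 + 1) * T ≤ (N + 1) * T := Nat.mul_le_mul_right _ (by omega)
      linarith
    have e3 : (j + W + 1) * T = (j + W) * T + T := by ring
    obtain ⟨z', h4, h5, h6⟩ := wheel D P R R'
      (lt_of_le_of_lt (Nat.mul_le_mul_left _ (by omega)) hR)
      (lt_of_le_of_lt (Nat.mul_le_mul_left _ (by omega)) hR')
      (by omega) (by omega) h1
    refine ⟨z', ?_, ?_, ?_⟩
    · rw [e1, ← add_assoc]
      exact h4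
    · rw [← add_assoc, e3]
      omega
    · rw [← add_assoc, e3]
      omega

theorem arith (lam k L : ℕ) (hk : 2 ≤ k) (h : 6 * lam ^ 2 ≤ k ∨ (2 * lam).factorial ∣ k - 1)
    (hL3 : 3 ≤ L) (hL : L ≤ 2 * lam) : ∃ j W, (W = 0 ∨ 5 ≤ L) ∧
    1 + j * (L - 2) + W * (3 * (L - 2) - 2) = 2 * k - 1 := by
  obtain ⟨e, he⟩ : ∃ e, L = e + 2 := ⟨L - 2, by omega⟩
  subst he
  rw [Nat.add_sub_cancel]
  by_cases hd : e ∣ 2 * (k - 1)
  · obtain ⟨j, hj⟩ := hd
    refine ⟨j, 0, Or.inl rfl, ?_⟩
    rw [mul_comm j e]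
    omega
  · have he3 : 3 ≤ e := by
      by_contra hcon
      apply hd
      rcases (show e = 1 ∨ e = 2 by omega) with h1 | h1
      · subst h1
        exact one_dvd _
      · subst h1
        exact dvd_mul_right _ _
    have hk6 : 6 * lam ^ 2 ≤ k := by
      rcases h with h | h
      · exact h
      · exact absurd (((Nat.dvd_factorial (by omega) (by omega)).trans h).trans
          (dvd_mul_left _ _)) hd
    obtain ⟨c, W, hcW, hW⟩ : ∃ c W : ℕ, c * e = k - 1 + W ∧ W < e := by
      have e1 := Nat.div_add_mod (k - 1 + (e - 1)) e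
      have e2 := Nat.mod_lt (k - 1 + (e - 1)) (show 0 < e by omega)
      refine ⟨(k - 1 + (e - 1)) / e, e - 1 - (k - 1 + (e - 1)) % e, ?_, by omega⟩
      rw [mul_comm]
      omega
    have h3 : 3 * W ≤ 2 * c := by
      have h4 : (3 * W) * e ≤ (2 * c) * e := by
        have h5 : (2 * c) * e = 2 * (k - 1) + 2 * W := by
          rw [mul_assoc, hcW]
          ring
        have h6 : W * e ≤ (e - 1) * e := Nat.mul_le_mul_right _ (by omega)
        have h7 : e * e + 4 ≤ (2 * lam) * (2 * lam) := by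
          have : (e + 2) * (e + 2) ≤ (2 * lam) * (2 * lam) := Nat.mul_le_mul hL hL
          nlinarith
        have h8 : (e - 1) * e + e = e * e := by
          rw [← Nat.succ_mul]
          congr 1
          omega
        have h9 : lam ^ 2 = lam * lam := pow_two lam
        have h10 : 2 * (k - 1) + 2 = 2 * k := by omega
        have h11 : e ≤ e * e := Nat.le_mul_self e
        rw [h5]
        have h12 : 3 * W * e = 3 * (W * e) := by ring
        have h13 : 2 * lam * (2 * lam) = 4 * (lam * lam) := by ring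
        rw [h12]
        rw [h13] at h7
        rw [h9] at hk6
        omega
      exact Nat.le_of_mul_le_mul_right h4 (by omega)
    refine ⟨2 * c - 3 * W, W, Or.inr (by omega), ?_⟩
    have h10 : (2 * c - 3 * W) * e + 3 * W * e = 2 * (k - 1) + 2 * W := by
      rw [← Nat.add_mul, Nat.sub_add_cancel h3, mul_assoc, hcW]
      ring
    have h11 : W * (3 * e - 2) + 2 * W = 3 * W * e := by
      have : W * (3 * e - 2) + W * 2 = W * (3 * e) := by
        rw [← mul_add]
        congr 1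
        omega
      linarith
    omega

/-- even cycles in a graph with a group of automorphisms that satisfies a law, from many group
elements -/
theorem localV {r : ℕ} (w : FreeGroup (Fin r)) (hw : w ≠ 1) (k : ℕ) (hk : 2 ≤ k)
    (h : 6 * w.toWord.length ^ 2 ≤ k ∨ (2 * w.toWord.length).factorial ∣ k - 1) :
    ∃ N : ℕ, ∀ (Γ V : Type) [Group Γ] [MulAction Γ V], (∀ φ : FreeGroup (Fin r) →* Γ, φ w = 1) →
    ∀ (X : SimpleGraph V), (∀ (g : Γ) (a c : V), X.Adj a c → X.Adj (g • a) (g • c)) →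
    ∀ (b : Bool → V) (T : Finset Γ), N ≤ T.card → (∀ g ∈ T, X.Adj (b true) (g • b false)) →
    (∀ g ∈ T, ∀ g' ∈ T, g • b false = g' • b false → g = g') →
    (∀ g ∈ T, ∀ g' ∈ T, g⁻¹ • b true = g'⁻¹ • b true → g = g') → cycleGraph (2 * k) ⊑ X := by
  obtain ⟨u, hul, hub, huv, hun⟩ := p2m w hw
  set lam := w.toWord.length with hlam
  set q0 := 2 * lam + r + 3 with hq0
  set R := 2 * lam * (2 * k + 1) + 1 with hR
  set R' := 2 * (2 * lam) * (2 * k + 1 + 2 * lam) + 1 with hR'
  set T0 := q0 * R + (q0 * R' * (2 * (q0 * R) + 3) + 2 * (q0 * R)) with hT0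
  set z0 := (2 * k + 1) * T0 with hz0
  set M := z0 + (2 * k + 1) * T0 + q0 + 1 with hM
  obtain ⟨N, hN⟩ := p1V M (2 * lam)
  refine ⟨N, fun Γ V _ _ hlaw X haut b T hT hadj hi1 hi2 => ?_⟩
  obtain ⟨t, ht1, ht2, hH⟩ := hN Γ V b T hT
  have hadj' : ∀ (s : Bool) (i : ℕ), i < M → X.Adj (b s) (vl t s i • b (!s)) := by
    intro s i hi
    cases s
    · have h1 := haut (t i)⁻¹ _ _ (hadj _ (ht1 i hi))
      rw [inv_smul_smul] at h1
      simpa [vl] using h1.symm
    · simpa [vl] using hadj _ (ht1 i hi)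
  have hinj' : ∀ (s : Bool), ∀ i < M, ∀ j < M, vl t s i • b (!s) = vl t s j • b (!s) →
      i = j := by
    intro s i hi j hj he
    cases s
    · exact ht2 i hi j hj (hi2 _ (ht1 i hi) _ (ht1 j hj) (by simpa [vl] using he))
    · exact ht2 i hi j hj (hi1 _ (ht1 i hi) _ (ht1 j hj) (by simpa [vl] using he))
  obtain ⟨s', a, b', m, h1, h2, h3, h4, h5, h6⟩ := exist_rel t (fun i : ℕ => FreeGroup.of i)
    u.length true u rfl (by omega) (huv Γ hlaw t) hun
  obtain ⟨L, hL3, hLn, D, s, a, a2, α, c, β, P⟩ := exV (X := X) t b M (2 * lam) q0 (2 * lam) haut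
    hadj' hinj' hH le_rfl (by omega) (by omega) ⟨s', a :: m ++ [b'], by simp, by omega, h3,
      fun i hi => (hub i (h5 i hi)).trans_le (by omega), by
        rw [Wv, h6, one_smul, sd_even _ _ h2]⟩
  obtain ⟨j, W, hW, hjW⟩ := arith lam k L hk h hL3 hLn
  have hRL : (L - 2) * (2 * k + 1) < R := by
    have : (L - 2) * (2 * k + 1) ≤ 2 * lam * (2 * k + 1) := Nat.mul_le_mul_right _ (by omega)
    omega
  have hRL' : 2 * (L - 2) * (2 * k + 1 + L) < R' := by
    have : 2 * (L - 2) * (2 * k + 1 + L) ≤ 2 * (2 * lam) * (2 * k + 1 + 2 * lam) :=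
      Nat.mul_le_mul (by omega) (by omega)
    omega
  have hz0M : z0 < M := by omega
  have h0 : St X t b s (Wv t b s [z0]) 1 z0 := by
    refine ⟨le_rfl, fun i => if i = 0 then b s else Wv t b s [z0], ⟨?_, ?_⟩, by simp, by simp,
      by simp⟩
    · intro i hi
      have hi0 : i = 0 := by omega
      subst hi0
      simp only [if_true]
      rw [if_neg (by omega), Wv_singleton]
      exact hadj' s z0 hz0M
    · intro i j hij hj
      have hi0 : i = 0 := by omega
      have hj1 : j = 1 := by omega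
      subst hi0 hj1
      simp only [if_true]
      rw [if_neg (by omega), Wv_singleton]
      exact (hadj' s z0 hz0M).ne
  obtain ⟨z, hSt⟩ : ∃ z, St X t b s (Wv t b s [z0]) (2 * k - 1) z := by
    by_cases hL5 : 5 ≤ L
    · obtain ⟨a3, α', rfl⟩ : ∃ a3 α', α = a3 :: α' := by
        have e1 := P.len
        have e2 := P.hβ
        rcases α with _ | ⟨a3, α'⟩
        · simp at e1 e2
          omega
        · exact ⟨a3, α', rfl⟩
      obtain ⟨m', β', rfl⟩ : ∃ m' β', β = m' :: β' := by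
        have e1 := P.len
        have e2 := P.hα
        rcases β with _ | ⟨a3, α'⟩
        · simp at e1 e2
          omega
        · exact ⟨a3, α', rfl⟩
      obtain ⟨z, g1, _, _⟩ := iter2 D P hL5 (2 * k) R R' T0 z0 j hRL hRL' le_rfl le_rfl (by omega)
        h0 W (by omega)
      rw [hjW] at g1
      exact ⟨z, g1⟩
    · have hW0 : W = 0 := by
        rcases hW with hW | hW
        · exact hW
        · exact absurd hW hL5
      subst hW0
      rw [Nat.zero_mul, Nat.add_zero] at hjW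
      obtain ⟨z, g1, _, _⟩ := iter1 D P hL3 (2 * k) R T0 z0 hRL (by omega) le_rfl (by omega)
        h0 j (by omega)
      rw [hjW] at g1
      exact ⟨z, g1⟩
  obtain ⟨_, p, hp, hp0, _, hpn⟩ := hSt
  refine Pool.Agent.H694R4.cycle_of_fun X (2 * k) (by omega) p ?_ ?_ ?_
  · intro i hi
    exact hp.1 i (by omega)
  · rw [hpn, hp0, Wv_singleton]
    exact (hadj' s z0 hz0M).symm
  · intro i j hij hj
    exact hp.2 i j hij (by omega)

end Pool.Agent.TH468.EC
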