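import Pool.Agent.H694R4.Law.Base
import Pool.Agent.H694R4.Key

/-!
# Walks of labels in a graph with a group action (vertices instead of group elements)
-/

set_option autoImplicit false

namespace Pool.Agent.TH468.EC

open Pool.Agent.H694R4.Law SimpleGraph

variable {Γ V : Type*} [Group Γ] [MulAction Γ V] {t : ℕ → Γ} {b : Bool → V}

/-- the end of the walk with the labels `u` from `b s` -/
def Wv (t : ℕ → Γ) (b : Bool → V) (s : Bool) (u : List ℕ) : V := val t s u • b (sd s u.length)

theorem Wv_nil (s : Bool) : Wv t b s [] = b s := by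
  simp [Wv, val_nil, sd]

theorem Wv_cons (s : Bool) (i : ℕ) (u : List ℕ) :
    Wv t b s (i :: u) = vl t s i • Wv t b (!s) u := by
  rw [Wv, Wv, val_cons, mul_smul]
  rfl

theorem Wv_append (s : Bool) (u v : List ℕ) :
    Wv t b s (u ++ v) = val t s u • Wv t b (sd s u.length) v := by
  rw [Wv, Wv, val_append, mul_smul, List.length_append, sd_add]

theorem Wv_singleton (s : Bool) (i : ℕ) : Wv t b s [i] = vl t s i • b (!s) := by
  rw [Wv_cons, Wv_nil]

/-- no closed walks with reduced words of labels shorter than `L` -/
def NS (t : ℕ → Γ) (b : Bool → V) (M L : ℕ) : Prop :=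
  ∀ (s : Bool) (u : List ℕ), u ≠ [] → u.length < L → Red u → (∀ i ∈ u, i < M) → Wv t b s u ≠ b s

/-- closing a word at its middle -/
theorem rebase (s : Bool) (u v : List ℕ) :
    Wv t b s (u ++ v) = b s ↔ Wv t b (sd s u.length) v = Wv t b (sd s u.length) u.reverse := by
  have h1 : Wv t b (sd s u.length) u.reverse = (val t s u)⁻¹ • b s := by
    rw [Wv, val_reverse, List.length_reverse, ← sd_add, sd_even _ _ (by omega)]
  rw [h1, Wv_append, eq_inv_smul_iff]

theorem red_rev_append {u v : List ℕ} (hu : Red u) (hv : Red v)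
    (h : ∀ x ∈ u.head?, ∀ y ∈ v.head?, x ≠ y) : Red (u.reverse ++ v) := by
  unfold Red at hu hv ⊢
  rw [List.isChain_append]
  refine ⟨?_, hv, ?_⟩
  · rw [List.isChain_reverse]
    exact hu.imp fun _ _ hh => hh.symm
  · intro x hx y hy
    rw [List.getLast?_reverse] at hx
    exact h x hx y hy

theorem Red.take {u : List ℕ} (h : Red u) (j : ℕ) : Red (u.take j) := by
  unfold Red at h ⊢
  rw [← List.take_append_drop j u] at h
  exact h.left_of_append

theorem Red.drop {u : List ℕ} (h : Red u) (j : ℕ) : Red (u.drop j) := by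
  unfold Red at h ⊢
  rw [← List.take_append_drop j u] at h
  exact h.right_of_append

/-- short reduced words with the same end are equal -/
theorem NS.inj {M L : ℕ} (h : NS t b M L) : ∀ (u v : List ℕ) (s : Bool), Red u → Red v →
    u.length + v.length < L → (∀ i ∈ u, i < M) → (∀ i ∈ v, i < M) →
    Wv t b s u = Wv t b s v → u = v := by
  intro u
  induction u with
  | nil =>
    intro v s _ hv hl _ hM he
    by_contra hne
    rw [Wv_nil] at he
    exact h s v (fun hh => hne hh.symm) (by simpa using hl) hv hM he.symm
  | cons a u ih =>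
    intro v s hu hv hl hM hM' he
    rcases v with _ | ⟨c, v⟩
    · rw [Wv_nil] at he
      exact absurd he (h s (a :: u) (List.cons_ne_nil _ _) (by simpa using hl) hu hM)
    · by_cases hac : a = c
      · subst hac
        rw [Wv_cons, Wv_cons] at he
        have h1 := smul_left_cancel _ he
        rw [ih v (!s) hu.tail hv.tail (by simp at hl ⊢; omega)
          (fun i hi => hM i (List.mem_cons_of_mem _ hi))
          (fun i hi => hM' i (List.mem_cons_of_mem _ hi)) h1]
      · exfalso
        have hs : sd (sd s (a :: u).length) (a :: u).length = s := by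
          rw [← sd_add, sd_even _ _ (by omega)]
        refine h (sd s (a :: u).length) ((a :: u).reverse ++ (c :: v)) (by simp) ?_ ?_ ?_ ?_
        · simp only [List.length_append, List.length_reverse]
          exact hl
        · refine red_rev_append hu hv ?_
          intro x hx y hy
          simp only [List.head?_cons, Option.mem_def, Option.some.injEq] at hx hy
          rw [← hx, ← hy]
          exact hac
        · intro i hi
          rw [List.mem_append, List.mem_reverse] at hi
          exact hi.elim (hM i) (hM' i)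
        · rw [rebase, List.length_reverse, hs, List.reverse_reverse]
          exact he.symm

/-- prefixes of a reduced word have different ends -/
theorem NS.take_ne {M L : ℕ} (h : NS t b M L) (u : List ℕ) (s : Bool) (hu : Red u)
    (hM : ∀ i ∈ u, i < M) (i j : ℕ) (hij : i < j) (hj : j ≤ u.length) (hl : j - i < L) :
    Wv t b s (u.take i) ≠ Wv t b s (u.take j) := by
  intro he
  have h5 : u.take j = u.take i ++ (u.take j).drop i := by
    conv_lhs => rw [← List.take_append_drop i (u.take j)]
    rw [List.take_take, min_eq_left hij.le]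
  have h8 : ((u.take j).drop i).length = j - i := by
    rw [List.length_drop, List.length_take]
    omega
  rw [h5, Wv_append, Wv] at he
  have h9 := smul_left_cancel _ he
  refine h _ ((u.take j).drop i) ?_ (by omega) ?_ ?_ h9.symm
  · intro h10
    rw [h10] at h8
    simp at h8
    omega
  · exact (hu.take j).drop i
  · intro x hx
    exact hM x (List.mem_of_mem_take (List.mem_of_mem_drop hx))

/-- paths -/
def PathF (X : SimpleGraph V) (n : ℕ) (p : ℕ → V) : Prop :=
  (∀ i < n, X.Adj (p i) (p (i + 1))) ∧ ∀ i j, i < j → j ≤ n → p i ≠ p j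

theorem PathF.ne {X : SimpleGraph V} {n : ℕ} {p : ℕ → V} (h : PathF X n p) (i j : ℕ)
    (hi : i ≤ n) (hj : j ≤ n) (hij : i ≠ j) : p i ≠ p j := by
  rcases Nat.lt_or_gt_of_ne hij with h1 | h1
  · exact h.2 i j h1 hj
  · exact (h.2 j i h1 hi).symm

theorem PathF.trunc {X : SimpleGraph V} {n : ℕ} {p : ℕ → V} (h : PathF X n p) (m : ℕ)
    (hm : m ≤ n) : PathF X m p :=
  ⟨fun i hi => h.1 i (by omega), fun i j hij hj => h.2 i j hij (by omega)⟩

theorem PathF.rev {X : SimpleGraph V} {n : ℕ} {p : ℕ → V} (h : PathF X n p) :
    PathF X n (fun i => p (n - i)) := by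
  refine ⟨fun i hi => ?_, fun i j hij hj => h.ne _ _ (by omega) (by omega) (by omega)⟩
  have h1 := (h.1 (n - (i + 1)) (by omega)).symm
  rw [show n - (i + 1) + 1 = n - i by omega] at h1
  exact h1

theorem PathF.shift {X : SimpleGraph V} {n : ℕ} {p : ℕ → V} (h : PathF X n p) (a : ℕ)
    (ha : a ≤ n) : PathF X (n - a) (fun i => p (i + a)) := by
  refine ⟨fun i hi => ?_, fun i j hij hj => h.ne _ _ (by omega) (by omega) (by omega)⟩
  have h1 := h.1 (i + a) (by omega)
  rw [show i + a + 1 = i + 1 + a by omega] at h1
  exact h1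

/-- concatenation -/
def cat (m : ℕ) (f g : ℕ → V) (i : ℕ) : V := if i ≤ m then f i else g (i - m)

theorem PathF.cat {X : SimpleGraph V} {m n : ℕ} {f g : ℕ → V} (hf : PathF X m f)
    (hg : PathF X n g) (h : f m = g 0) (hd : ∀ i < m, ∀ j ≤ n, f i ≠ g j) :
    PathF X (m + n) (cat m f g) := by
  refine ⟨fun i hi => ?_, fun i j hij hj => ?_⟩
  · unfold EC.cat
    rcases Nat.lt_trichotomy i m with h1 | h1 | h1
    · rw [if_pos h1.le, if_pos (by omega)]
      exact hf.1 i h1
    · subst h1
      rw [if_pos le_rfl, if_neg (by omega), h, show i + 1 - i = 0 + 1 by omega]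
      exact hg.1 0 (by omega)
    · rw [if_neg (by omega), if_neg (by omega), show i + 1 - m = i - m + 1 by omega]
      exact hg.1 _ (by omega)
  · unfold EC.cat
    by_cases h1 : j ≤ m
    · rw [if_pos (by omega), if_pos h1]
      exact hf.2 i j hij h1
    · rw [if_neg h1]
      by_cases h2 : i ≤ m
      · rw [if_pos h2]
        rcases Nat.lt_or_ge i m with h3 | h3
        · exact hd i h3 _ (by omega)
        · have h4 : i = m := by omega
          subst h4
          rw [h]
          exact hg.2 0 _ (by omega) (by omega)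
      · rw [if_neg h2]
        exact hg.2 _ _ (by omega) (by omega)

/-- data of a graph with a group action, two base vertices and labels -/
structure Dt (X : SimpleGraph V) (t : ℕ → Γ) (b : Bool → V) (M L : ℕ) : Prop where
  aut : ∀ (g : Γ) (a c : V), X.Adj a c → X.Adj (g • a) (g • c)
  adj : ∀ (s : Bool) (i : ℕ), i < M → X.Adj (b s) (vl t s i • b (!s))
  ns : NS t b M L

theorem Dt.adj_take {X : SimpleGraph V} {M L : ℕ} (D : Dt X t b M L) (s : Bool) (u : List ℕ)
    (hM : ∀ i ∈ u, i < M) (j : ℕ) (hj : j < u.length) :
    X.Adj (Wv t b s (u.take j)) (Wv t b s (u.take (j + 1))) := by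
  have h1 : u.take (j + 1) = u.take j ++ [u[j]] := by
    rw [List.take_append_getElem]
  rw [h1, Wv_append, Wv_singleton, Wv]
  exact D.aut _ _ _ (D.adj _ _ (hM _ (List.getElem_mem _)))

/-- the cycle given by two words `α`, `β` with the same end: first the base vertex, then the word
`β`, then the word `α` backwards -/
def qf (t : ℕ → Γ) (b : Bool → V) (s : Bool) (α β : List ℕ) (i : ℕ) : V :=
  if i < β.length then Wv t b s (β.take i) else Wv t b s (α.take (α.length + β.length - i))

/-- pairs of words with the same end -/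
structure Rl (t : ℕ → Γ) (b : Bool → V) (M L : ℕ) (s : Bool) (α β : List ℕ) : Prop where
  len : α.length + β.length = L
  hβ : 2 * β.length ≤ L
  hα : 2 * α.length ≤ L + 1
  redα : Red α
  redβ : Red β
  hd : ∀ x ∈ α.head?, ∀ y ∈ β.head?, x ≠ y
  labα : ∀ i ∈ α, i < M
  labβ : ∀ i ∈ β, i < M
  meet : Wv t b s α = Wv t b s β
  hβ1 : 1 ≤ β.length
  hα1 : 2 ≤ α.length

theorem head_take {u v : List ℕ} {i j : ℕ} (hi : 1 ≤ i) (hj : 1 ≤ j)
    (h : ∀ x ∈ u.head?, ∀ y ∈ v.head?, x ≠ y) (hu : u ≠ []) (hv : v ≠ []) :
    u.take i ≠ v.take j := by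
  obtain ⟨a, u, rfl⟩ := List.exists_cons_of_ne_nil hu
  obtain ⟨c, v, rfl⟩ := List.exists_cons_of_ne_nil hv
  obtain ⟨i, rfl⟩ : ∃ i', i = i' + 1 := ⟨i - 1, by omega⟩
  obtain ⟨j, rfl⟩ : ∃ j', j = j' + 1 := ⟨j - 1, by omega⟩
  intro he
  rw [List.take_succ_cons, List.take_succ_cons, List.cons.injEq] at he
  exact h a (by simp) c (by simp) he.1

theorem Rl.path {X : SimpleGraph V} {M L : ℕ} (D : Dt X t b M L) {s : Bool} {α β : List ℕ}
    (R : Rl t b M L s α β) : PathF X (L - 1) (qf t b s α β) := by
  have hlen := R.len
  have hβ := R.hβ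
  have hα := R.hα
  have hβ1 := R.hβ1
  have hα1 := R.hα1
  have hαn : α ≠ [] := by
    rintro h
    rw [h] at hα1
    simp at hα1
  have hβn : β ≠ [] := by
    rintro h
    rw [h] at hβ1
    simp at hβ1
  have hlt : ∀ (j : ℕ), ∀ i ∈ α.take j, i < M := fun j i hi => R.labα i (List.mem_of_mem_take hi)
  have hlt' : ∀ (j : ℕ), ∀ i ∈ β.take j, i < M := fun j i hi => R.labβ i (List.mem_of_mem_take hi)
  refine ⟨fun i hi => ?_, fun i j hij hj => ?_⟩
  · unfold qf
    rcases Nat.lt_trichotomy (i + 1) β.length with h1 | h1 | h1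
    · rw [if_pos (by omega), if_pos h1]
      exact D.adj_take s β R.labβ i (by omega)
    · rw [if_pos (by omega), if_neg (by omega)]
      have h2 := D.adj_take s β R.labβ i (by omega)
      rw [h1, List.take_length, ← R.meet] at h2
      rw [show α.length + β.length - (i + 1) = α.length by omega, List.take_length]
      exact h2
    · rw [if_neg (by omega), if_neg (by omega)]
      have h2 := D.adj_take s α R.labα (α.length + β.length - (i + 1)) (by omega)
      rw [show α.length + β.length - (i + 1) + 1 = α.length + β.length - i by omega] at h2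
      exact h2.symm
  · unfold qf
    by_cases h1 : j < β.length
    · rw [if_pos (by omega), if_pos h1]
      exact D.ns.take_ne β s R.redβ R.labβ i j hij h1.le (by omega)
    · rw [if_neg h1]
      by_cases h2 : i < β.length
      · rw [if_pos h2]
        intro he
        have h3 := D.ns.inj _ _ s (R.redβ.take _) (R.redα.take _) (by
          rw [List.length_take, List.length_take]
          omega) (hlt' _) (hlt _) he
        rcases Nat.eq_zero_or_pos i with h4 | h4
        · subst h4
          have h5 := congrArg List.length h3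
          rw [List.length_take, List.length_take] at h5
          omega
        · exact head_take (by omega) h4 R.hd hαn hβn h3.symm
      · rw [if_neg h2]
        exact (D.ns.take_ne α s R.redα R.labα _ _ (by omega) (by omega) (by omega)).symm

theorem qf_zero {α β : List ℕ} (s : Bool) (hβ : 1 ≤ β.length) : qf t b s α β 0 = b s := by
  unfold qf
  rw [if_pos (by omega), List.take_zero, Wv_nil]

theorem take_one {u : List ℕ} (h : u ≠ []) : u.take 1 = [u.head h] := by
  obtain ⟨a, u, rfl⟩ := List.exists_cons_of_ne_nil h
  rfl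

theorem Rl.qf_one {M L : ℕ} {s : Bool} {c : ℕ} {α β : List ℕ}
    (R : Rl t b M L s α (c :: β)) : qf t b s α (c :: β) 1 = Wv t b s [c] := by
  unfold qf
  have hlen := R.len
  by_cases h : 1 < (c :: β).length
  · rw [if_pos h]
    rfl
  · rw [if_neg h]
    have h1 : β = [] := by
      rw [List.length_cons] at h
      exact List.length_eq_zero_iff.mp (by omega)
    subst h1
    rw [← R.meet]
    congr 1
    rw [List.take_of_length_le]
    simp

theorem Rl.qf_last {M L : ℕ} {s : Bool} {a : ℕ} {α β : List ℕ}
    (R : Rl t b M L s (a :: α) β) : qf t b s (a :: α) β (L - 1) = Wv t b s [a] := by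
  unfold qf
  have hlen := R.len
  have hβ := R.hβ
  have hα1 := R.hα1
  rw [if_neg (by omega), show (a :: α).length + β.length - (L - 1) = 1 by omega]
  rfl

/-- vertices of two cycles with a common edge at the base vertex are different -/
theorem Rl.ne {X : SimpleGraph V} {M L : ℕ} (D : Dt X t b M L) {s : Bool} {z a a' c c' : ℕ}
    {α β α' β' : List ℕ} (R : Rl t b M L s (z :: a :: α) (c :: β))
    (R' : Rl t b M L s (z :: a' :: α') (c' :: β')) (ha : a ≠ a') (hc : c ≠ c')
    (hl : α'.length = α.length) (i : ℕ) (hi : 1 ≤ i) (hi2 : i ≤ L - 2) :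
    qf t b s (z :: a :: α) (c :: β) i ≠ qf t b s (z :: a' :: α') (c' :: β') i := by
  have e1 := R.len
  have e2 := R.hα
  have e3 := R.hβ
  have e1' := R'.len
  have e4 := R.hβ1
  simp only [List.length_cons] at e1 e2 e3 e1' e4
  have hll : β'.length = β.length := by omega
  unfold qf
  simp only [List.length_cons]
  rw [hll, hl]
  by_cases h : i < β.length + 1
  · rw [if_pos h, if_pos h]
    intro he
    have h3 := D.ns.inj _ _ s (R.redβ.take _) (R'.redβ.take _) (by
      rw [List.length_take, List.length_take]
      simp only [List.length_cons]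
      omega) (fun x hx => R.labβ x (List.mem_of_mem_take hx))
      (fun x hx => R'.labβ x (List.mem_of_mem_take hx)) he
    exact head_take (u := c :: β) (v := c' :: β') hi hi (by simpa using hc) (by simp) (by simp) h3
  · rw [if_neg h, if_neg h]
    obtain ⟨j, hj⟩ : ∃ j, α.length + 1 + 1 + (β.length + 1) - i = j + 1 :=
      ⟨α.length + 1 + 1 + (β.length + 1) - i - 1, by omega⟩
    rw [hj, List.take_succ_cons, List.take_succ_cons, Wv_cons, Wv_cons]
    intro he
    have he' := smul_left_cancel _ he
    have h3 := D.ns.inj _ _ (!s) ((show Red (a :: α) from R.redα.tail).take _)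
      ((show Red (a' :: α') from R'.redα.tail).take _) (by
      rw [List.length_take, List.length_take]
      simp only [List.length_cons]
      omega) (fun x hx => R.labα x (List.mem_cons_of_mem _ (List.mem_of_mem_take hx)))
      (fun x hx => R'.labα x (List.mem_cons_of_mem _ (List.mem_of_mem_take hx))) he'
    exact head_take (u := a :: α) (v := a' :: α') (i := j) (j := j) (by omega) (by omega)
      (by simpa using ha) (by simp) (by simp) h3

end Pool.Agent.TH468.EC
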