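import Pool.Agent.TH468.GL.Orbit
import Pool.Agent.TH468.EC.Iter

/-!
# Many neighbours in both directions; the number of edges
-/

set_option autoImplicit false

namespace Pool.Agent.TH468.EC

open SimpleGraph Pool.Agent.TH468.GL

open Classical in
/-- group elements with different images of both vertices -/
theorem selectF {A V : Type*} [Group A] [MulAction A V] [Fintype A] [Finite V]
    (X : SimpleGraph V) (haut : ∀ (g : A) (a c : V), X.Adj a c → X.Adj (g • a) (g • c)) (u v : V)
    (N : ℕ) (hu : 2 * N ≤ (X.neighborSet u ∩ MulAction.orbit A v).ncard)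
    (hv : 2 * N ≤ (X.neighborSet v ∩ MulAction.orbit A u).ncard) : ∀ j ≤ N,
    ∃ T : Finset A, T.card = j ∧ (∀ g ∈ T, X.Adj u (g • v)) ∧
      (∀ g ∈ T, ∀ g' ∈ T, g • v = g' • v → g = g') ∧
      (∀ g ∈ T, ∀ g' ∈ T, g⁻¹ • u = g'⁻¹ • u → g = g') := by
  have := Fintype.ofFinite V
  set P : Finset A := Finset.univ.filter fun g => X.Adj u (g • v) with hP
  have hP1 : 2 * N * sg A v ≤ P.card := by
    have h1 := card_smul_mem (A := A) v (X.neighborSet u ∩ MulAction.orbit A v).toFinset (by
      intro y hy
      rw [Set.mem_toFinset] at hy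
      exact hy.2)
    have h2 : (Finset.univ.filter fun a : A =>
        a • v ∈ (X.neighborSet u ∩ MulAction.orbit A v).toFinset) = P := by
      ext a
      simp only [Finset.mem_filter, Finset.mem_univ, true_and, Set.mem_toFinset,
        Set.mem_inter_iff, SimpleGraph.mem_neighborSet, hP]
      exact ⟨fun h => h.1, fun h => ⟨h, ⟨a, rfl⟩⟩⟩
    rw [h2] at h1
    rw [h1]
    refine Nat.mul_le_mul_right _ ?_
    rw [← Set.ncard_eq_toFinset_card']
    exact hu
  have hP2 : 2 * N * sg A u ≤ P.card := by
    have h1 := card_smul_mem (A := A) u (X.neighborSet v ∩ MulAction.orbit A u).toFinset (by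
      intro y hy
      rw [Set.mem_toFinset] at hy
      exact hy.2)
    have h2 : (Finset.univ.filter fun a : A =>
        a • u ∈ (X.neighborSet v ∩ MulAction.orbit A u).toFinset).card ≤ P.card := by
      refine Finset.card_le_card_of_injOn (fun a => a⁻¹) ?_ (fun a _ b _ hab => inv_injective hab)
      intro a ha
      simp only [Finset.coe_filter, Finset.mem_univ, true_and, Set.mem_toFinset,
        Set.mem_inter_iff, SimpleGraph.mem_neighborSet, hP, Set.mem_ofPred_eq] at ha ⊢
      have h3 := haut a⁻¹ _ _ ha.1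
      rw [inv_smul_smul] at h3
      exact h3.symm
    rw [h1] at h2
    refine le_trans (Nat.mul_le_mul_right _ ?_) h2
    rw [← Set.ncard_eq_toFinset_card']
    exact hv
  have hs1 : 0 < sg A u := sg_pos u
  have hs2 : 0 < sg A v := sg_pos v
  intro j
  induction j with
  | zero =>
    intro _
    exact ⟨∅, rfl, by simp, by simp, by simp⟩
  | succ j ih =>
    intro hj
    obtain ⟨T, hT, h1, h2, h3⟩ := ih (by omega)
    set B : Finset A := T.biUnion fun h => (Finset.univ.filter fun a : A => a • v = h • v) ∪
      (Finset.univ.filter fun a : A => a⁻¹ • u = h⁻¹ • u) with hB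
    have hBc : B.card ≤ j * (sg A v + sg A u) := by
      rw [hB, ← hT]
      refine Finset.card_biUnion_le_card_mul _ _ _ fun h _ => ?_
      refine (Finset.card_union_le _ _).trans (Nat.add_le_add ?_ ?_)
      · rw [card_fiber]
      · rw [← card_fiber u h⁻¹]
        refine Finset.card_le_card_of_injOn (fun a => a⁻¹) ?_
          (fun a _ b _ hab => inv_injective hab)
        intro a ha
        simpa using ha
    have hlt : B.card < P.card := by
      have h4 : j * (sg A v + sg A u) < N * (sg A v + sg A u) :=
        Nat.mul_lt_mul_of_pos_right (by omega) (by omega)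
      nlinarith
    obtain ⟨g, hg, hgB⟩ := Finset.exists_mem_notMem_of_card_lt_card hlt
    have hgB1 : ∀ h ∈ T, g • v ≠ h • v := by
      intro h hh he
      apply hgB
      rw [hB, Finset.mem_biUnion]
      exact ⟨h, hh, Finset.mem_union_left _ (by simpa using he)⟩
    have hgB2 : ∀ h ∈ T, g⁻¹ • u ≠ h⁻¹ • u := by
      intro h hh he
      apply hgB
      rw [hB, Finset.mem_biUnion]
      exact ⟨h, hh, Finset.mem_union_right _ (by simpa using he)⟩
    have hgT : g ∉ T := fun h => hgB1 g h rfl
    refine ⟨insert g T, by rw [Finset.card_insert_of_notMem hgT, hT], ?_, ?_, ?_⟩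
    · intro x hx
      rw [Finset.mem_insert] at hx
      rcases hx with rfl | hx
      · exact (Finset.mem_filter.mp hg).2
      · exact h1 x hx
    · intro x hx y hy he
      rw [Finset.mem_insert] at hx hy
      rcases hx with rfl | hx <;> rcases hy with rfl | hy
      · rfl
      · exact absurd he (hgB1 y hy)
      · exact absurd he.symm (hgB1 x hx)
      · exact h2 x hx y hy he
    · intro x hx y hy he
      rw [Finset.mem_insert] at hx hy
      rcases hx with rfl | hx <;> rcases hy with rfl | hy
      · rfl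
      · exact absurd he (hgB2 y hy)
      · exact absurd he.symm (hgB2 x hx)
      · exact h3 x hx y hy he

theorem orbit_range {A V : Type*} [Group A] [MulAction A V] (x : V) :
    MulAction.orbit (MulAction.toPermHom A V).range x = MulAction.orbit A x := by
  ext y
  constructor
  · rintro ⟨⟨_, a, rfl⟩, h⟩
    exact ⟨a, h⟩
  · rintro ⟨a, h⟩
    exact ⟨⟨_, a, rfl⟩, h⟩

theorem law_range {A V : Type*} [Group A] [MulAction A V] {r : ℕ} (w : FreeGroup (Fin r))
    (hlaw : ∀ φ : FreeGroup (Fin r) →* A, φ w = 1)
    (φ : FreeGroup (Fin r) →* (MulAction.toPermHom A V).range) : φ w = 1 := by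
  have hex : ∀ i : Fin r, ∃ a : A,
      (MulAction.toPermHom A V).rangeRestrict a = φ (FreeGroup.of i) := fun i =>
    (MulAction.toPermHom A V).rangeRestrict_surjective _
  choose a ha using hex
  have h1 : (MulAction.toPermHom A V).rangeRestrict.comp (FreeGroup.lift a) = φ := by
    apply FreeGroup.ext_hom
    intro i
    simp [ha]
  rw [← h1, MonoidHom.comp_apply, hlaw, map_one]

/-- Even cycles, the local version. -/
theorem localO {r : ℕ} (w : FreeGroup (Fin r)) (hw : w ≠ 1) (k : ℕ) (hk : 2 ≤ k)
    (h : 6 * w.toWord.length ^ 2 ≤ k ∨ (2 * w.toWord.length).factorial ∣ k - 1) :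
    ∃ D : ℕ, ∀ (Γ V : Type) [Group Γ] [MulAction Γ V] [Finite V],
    (∀ φ : FreeGroup (Fin r) →* Γ, φ w = 1) →
    ∀ (X : SimpleGraph V), (∀ (g : Γ) (a c : V), X.Adj a c → X.Adj (g • a) (g • c)) →
    ∀ u v : V, D ≤ (X.neighborSet u ∩ MulAction.orbit Γ v).ncard →
      D ≤ (X.neighborSet v ∩ MulAction.orbit Γ u).ncard → cycleGraph (2 * k) ⊑ X := by
  obtain ⟨N, hN⟩ := localV w hw k hk h
  refine ⟨2 * N, fun Γ V _ _ _ hlaw X haut u v hu hv => ?_⟩
  have : Finite (MulAction.toPermHom Γ V).range := inferInstance
  have : Fintype (MulAction.toPermHom Γ V).range := Fintype.ofFinite _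
  have haut' : ∀ (g : (MulAction.toPermHom Γ V).range) (a c : V), X.Adj a c →
      X.Adj (g • a) (g • c) := by
    rintro ⟨_, g, rfl⟩ a c hac
    exact haut g a c hac
  obtain ⟨T, hT, h1, h2, h3⟩ := selectF (A := (MulAction.toPermHom Γ V).range) X haut' u v N
    (by rw [orbit_range]; exact hu) (by rw [orbit_range]; exact hv) N le_rfl
  exact hN (MulAction.toPermHom Γ V).range V (law_range w hlaw) X haut' (fun i => bif i then u else v)
    T hT.ge (fun g hg => by simpa using h1 g hg) (fun g hg g' hg' he => h2 g hg g' hg'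
      (by simpa using he)) (fun g hg g' hg' he => h3 g hg g' hg' (by simpa using he))

open Classical in
/-- few edges if there are few orbits -/
theorem edges_two {G V : Type*} [Group G] [MulAction G V] [Finite V] (X : SimpleGraph V)
    (D n : ℕ) (hloc : ∀ u v : V, D ≤ (X.neighborSet u ∩ MulAction.orbit G v).ncard →
      D ≤ (X.neighborSet v ∩ MulAction.orbit G u).ncard → cycleGraph n ⊑ X)
    (hX : (cycleGraph n).Free X) :
    X.edgeSet.ncard ≤ D * Nat.card (MulAction.orbitRel.Quotient G V) * Nat.card V := by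
  have := Fintype.ofFinite V
  have := Fintype.ofFinite (MulAction.orbitRel.Quotient G V)
  set L : Finset (V × V) := Finset.univ.filter fun q => X.Adj q.1 q.2 ∧
    (X.neighborSet q.1 ∩ MulAction.orbit G q.2).ncard < D with hL
  have h1 : X.edgeSet ⊆ ((L.image fun q => s(q.1, q.2) : Finset (Sym2 V)) : Set (Sym2 V)) := by
    intro e he
    induction e with
    | _ u v =>
      rw [SimpleGraph.mem_edgeSet] at he
      rw [Finset.coe_image]
      by_cases hu : (X.neighborSet u ∩ MulAction.orbit G v).ncard < D
      · exact ⟨(u, v), by simpa [hL] using ⟨he, hu⟩, rfl⟩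
      · by_cases hv : (X.neighborSet v ∩ MulAction.orbit G u).ncard < D
        · exact ⟨(v, u), by simpa [hL] using ⟨he.symm, hv⟩, Sym2.eq_swap⟩
        · exact absurd (hloc u v (not_lt.mp hu) (not_lt.mp hv)) hX
  have h2 : X.edgeSet.ncard ≤ L.card := by
    refine (Set.ncard_le_ncard h1 (Finset.finite_toSet _)).trans ?_
    rw [Set.ncard_coe_finset]
    exact Finset.card_image_le
  refine h2.trans ?_
  have h3 : ∀ q ∈ L, ((q.1, (Quotient.mk'' q.2 : MulAction.orbitRel.Quotient G V)) :
      V × MulAction.orbitRel.Quotient G V) ∈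
      (Finset.univ : Finset (V × MulAction.orbitRel.Quotient G V)) := fun q _ =>
    Finset.mem_univ _
  rw [Finset.card_eq_sum_card_fiberwise h3]
  have h4 : ∀ y ∈ (Finset.univ : Finset (V × MulAction.orbitRel.Quotient G V)),
      (L.filter fun q => ((q.1, (Quotient.mk'' q.2 : MulAction.orbitRel.Quotient G V)) :
        V × MulAction.orbitRel.Quotient G V) = y).card ≤ D := by
    rintro ⟨x, w⟩ _
    rcases Finset.eq_empty_or_nonempty (L.filter fun q =>
      ((q.1, (Quotient.mk'' q.2 : MulAction.orbitRel.Quotient G V)) :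
        V × MulAction.orbitRel.Quotient G V) = (x, w)) with h | ⟨⟨u, v⟩, h⟩
    · rw [h]
      simp
    · rw [Finset.mem_filter] at h
      obtain ⟨h5, h6⟩ := h
      rw [Prod.mk.injEq] at h6
      obtain ⟨rfl, rfl⟩ := h6
      have h7 := (Finset.mem_filter.mp h5).2.2
      refine le_trans ?_ h7.le
      rw [Set.ncard_eq_toFinset_card _ (Set.toFinite _)]
      refine Finset.card_le_card_of_injOn (fun q => q.2) ?_ ?_
      · rintro ⟨a, e⟩ hq
        rw [Finset.mem_coe, Finset.mem_filter] at hq
        obtain ⟨h8, h9⟩ := hq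
        rw [Prod.mk.injEq] at h9
        obtain ⟨h9, h10⟩ := h9
        simp only at h9
        subst h9
        have h11 := (Finset.mem_filter.mp h8).2.1
        simp only [Set.Finite.coe_toFinset]
        refine ⟨h11, ?_⟩
        exact (MulAction.orbitRel_apply).mp (Quotient.exact h10)
      · rintro ⟨a, e⟩ hq ⟨a', e'⟩ hq' hee
        rw [Finset.mem_coe, Finset.mem_filter] at hq hq'
        have h9 := hq.2
        have h9' := hq'.2
        rw [Prod.mk.injEq] at h9 h9'
        simp only at h9 h9' hee
        rw [h9.1, h9'.1, hee]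
  refine (Finset.sum_le_sum h4).trans ?_
  rw [Finset.sum_const, smul_eq_mul, Finset.card_univ, Fintype.card_prod, Nat.card_eq_fintype_card,
    Nat.card_eq_fintype_card]
  apply le_of_eq
  ring

end Pool.Agent.TH468.EC
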