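import Pool.Agent.TH468.EC.Base

/-!
# Two relators with a common edge at the base vertex; choice of labels
-/

set_option autoImplicit false

namespace Pool.Agent.TH468.EC

open Pool.Agent.H694R4.Law SimpleGraph

variable {Γ V : Type*} [Group Γ] [MulAction Γ V] {t : ℕ → Γ} {b : Bool → V}

theorem Rl.disj {X : SimpleGraph V} {M L : ℕ} (D : Dt X t b M L) {s : Bool} {z z' l m m' : ℕ}
    {α β α' β' : List ℕ} (R : Rl t b M L s (z :: α) (l :: m :: β))
    (R' : Rl t b M L s (z' :: α') (l :: m' :: β')) (hz : z ≠ z') (hm : m ≠ m')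
    (hl : α'.length = α.length) (i j : ℕ) (hi : 1 ≤ i) (hi2 : i ≤ L - 1) (hj : 1 ≤ j)
    (hj2 : j ≤ L - 1) (hij : ¬ (i = 1 ∧ j = 1)) :
    qf t b s (z :: α) (l :: m :: β) i ≠ qf t b s (z' :: α') (l :: m' :: β') j := by
  have e1 := R.len
  have e2 := R.hα
  have e3 := R.hβ
  have e1' := R'.len
  have hzl : z ≠ l := R.hd z (by simp) l (by simp)
  have hzl' : z' ≠ l := R'.hd z' (by simp) l (by simp)
  have labα := R.labα
  have labβ := R.labβ
  have labα' := R'.labα
  have labβ' := R'.labβ
  have redα := R.redα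
  have redβ := R.redβ
  have redα' := R'.redα
  have redβ' := R'.redβ
  have meet := R.meet
  have meet' := R'.meet
  simp only [List.length_cons] at e1 e2 e3 e1'
  have hll : β'.length = β.length := by omega
  -- comparison of prefixes
  have hββ : ∀ i j : ℕ, 1 ≤ i → 1 ≤ j → i ≤ β.length + 2 → j ≤ β.length + 2 →
      ¬ (i = 1 ∧ j = 1) →
      Wv t b s ((l :: m :: β).take i) ≠ Wv t b s ((l :: m' :: β').take j) := by
    intro i j h1 h2 h3 h4 h5 he
    obtain ⟨i, rfl⟩ : ∃ i', i = i' + 1 := ⟨i - 1, by omega⟩
    obtain ⟨j, rfl⟩ : ∃ j', j = j' + 1 := ⟨j - 1, by omega⟩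
    rw [List.take_succ_cons, List.take_succ_cons, Wv_cons, Wv_cons] at he
    have he' := smul_left_cancel _ he
    have h6 := D.ns.inj _ _ (!s) ((show Red (m :: β) from redβ.tail).take _)
      ((show Red (m' :: β') from redβ'.tail).take _) (by
      rw [List.length_take, List.length_take]
      simp only [List.length_cons]
      omega) (fun x hx => labβ x (List.mem_cons_of_mem _ (List.mem_of_mem_take hx)))
      (fun x hx => labβ' x (List.mem_cons_of_mem _ (List.mem_of_mem_take hx))) he'
    rcases Nat.eq_zero_or_pos i with h7 | h7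
    · subst h7
      have h8 := congrArg List.length h6
      rw [List.length_take, List.length_take] at h8
      simp only [List.length_cons] at h8
      omega
    · rcases Nat.eq_zero_or_pos j with h8 | h8
      · subst h8
        have h9 := congrArg List.length h6
        rw [List.length_take, List.length_take] at h9
        simp only [List.length_cons] at h9
        omega
      · exact head_take (u := m :: β) (v := m' :: β') h7 h8 (by simpa using hm) (by simp)
          (by simp) h6
  have hβα : ∀ i j : ℕ, 1 ≤ i → 1 ≤ j → i ≤ β.length + 2 → j ≤ α.length + 1 → i + j < L →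
      Wv t b s ((l :: m :: β).take i) ≠ Wv t b s ((z' :: α').take j) := by
    intro i j h1 h2 h3 h4 h5 he
    have h6 := D.ns.inj _ _ s (redβ.take _) (redα'.take _) (by
      rw [List.length_take, List.length_take]
      simp only [List.length_cons]
      omega) (fun x hx => labβ x (List.mem_of_mem_take hx))
      (fun x hx => labα' x (List.mem_of_mem_take hx)) he
    exact head_take (u := l :: m :: β) (v := z' :: α') h1 h2 (by simpa using hzl'.symm)
      (by simp) (by simp) h6
  have hαβ : ∀ i j : ℕ, 1 ≤ i → 1 ≤ j → i ≤ α.length + 1 → j ≤ β.length + 2 → i + j < L →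
      Wv t b s ((z :: α).take i) ≠ Wv t b s ((l :: m' :: β').take j) := by
    intro i j h1 h2 h3 h4 h5 he
    have h6 := D.ns.inj _ _ s (redα.take _) (redβ'.take _) (by
      rw [List.length_take, List.length_take]
      simp only [List.length_cons]
      omega) (fun x hx => labα x (List.mem_of_mem_take hx))
      (fun x hx => labβ' x (List.mem_of_mem_take hx)) he
    exact head_take (u := z :: α) (v := l :: m' :: β') h1 h2 (by simpa using hzl)
      (by simp) (by simp) h6
  have hαα : ∀ i j : ℕ, 1 ≤ i → 1 ≤ j → i ≤ α.length + 1 → j ≤ α.length + 1 →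
      Wv t b s ((z :: α).take i) ≠ Wv t b s ((z' :: α').take j) := by
    intro i j h1 h2 h3 h4 he
    by_cases h5 : i + j < L
    · have h6 := D.ns.inj _ _ s (redα.take _) (redα'.take _) (by
        rw [List.length_take, List.length_take]
        simp only [List.length_cons]
        omega) (fun x hx => labα x (List.mem_of_mem_take hx))
        (fun x hx => labα' x (List.mem_of_mem_take hx)) he
      exact head_take (u := z :: α) (v := z' :: α') h1 h2 (by simpa using hz)
        (by simp) (by simp) h6
    · by_cases h6 : i = α.length + 1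
      · have h7 : Wv t b s ((z :: α).take i) = Wv t b s ((l :: m :: β).take (β.length + 2)) := by
          rw [List.take_of_length_le (by simp [h6]), List.take_of_length_le (by simp)]
          exact meet
        by_cases h8 : j = α.length + 1
        · have h9 : Wv t b s ((z' :: α').take j) =
              Wv t b s ((l :: m' :: β').take (β.length + 2)) := by
            rw [List.take_of_length_le (by simp [h8, hl]),
              List.take_of_length_le (by simp [hll])]
            exact meet'
          rw [h7, h9] at he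
          exact hββ _ _ (by omega) (by omega) le_rfl le_rfl (by omega) he
        · rw [h7] at he
          exact hβα _ _ (by omega) h2 le_rfl h4 (by omega) he
      · have h8 : j = α.length + 1 := by omega
        have h9 : Wv t b s ((z' :: α').take j) =
            Wv t b s ((l :: m' :: β').take (β.length + 2)) := by
          rw [List.take_of_length_le (by simp [h8, hl]),
            List.take_of_length_le (by simp [hll])]
          exact meet'
        rw [h9] at he
        exact hαβ _ _ h1 (by omega) h3 le_rfl (by omega) he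
  unfold qf
  simp only [List.length_cons]
  rw [hll, hl]
  by_cases h1 : i < β.length + 1 + 1
  · rw [if_pos h1]
    by_cases h2 : j < β.length + 1 + 1
    · rw [if_pos h2]
      exact hββ i j hi hj (by omega) (by omega) hij
    · rw [if_neg h2]
      exact hβα i _ hi (by omega) (by omega) (by omega) (by omega)
  · rw [if_neg h1]
    by_cases h2 : j < β.length + 1 + 1
    · rw [if_pos h2]
      exact hαβ _ j (by omega) hj (by omega) (by omega) (by omega)
    · rw [if_neg h2]
      exact hαα _ _ (by omega) (by omega) (by omega) (by omega)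

open Classical in
/-- a choice that avoids a finite set -/
theorem pick {ι : Type*} (R : ℕ) (F : Finset V) (P : Finset ι) (v : ℕ → ι → V)
    (hinj : ∀ i ∈ P, ∀ r < R, ∀ r' < R, r ≠ r' → v r i ≠ v r' i) (hR : P.card * F.card < R) :
    ∃ r < R, ∀ i ∈ P, v r i ∉ F := by
  by_contra hcon
  push Not at hcon
  obtain ⟨i0, -, -⟩ := hcon 0 (by omega)
  have hex : ∀ r, ∃ i, r < R → i ∈ P ∧ v r i ∈ F := by
    intro r
    by_cases hr : r < R
    · obtain ⟨i, h1, h2⟩ := hcon r hr
      exact ⟨i, fun _ => ⟨h1, h2⟩⟩
    · exact ⟨i0, fun h => absurd h hr⟩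
  choose f hf using hex
  have hf1 : ∀ r, r < R → f r ∈ P := fun r hr => (hf r hr).1
  have hf2 : ∀ r, r < R → v r (f r) ∈ F := fun r hr => (hf r hr).2
  obtain ⟨r, hr, r', hr', hne, he⟩ := Finset.exists_ne_map_eq_of_card_lt_of_maps_to
    (s := Finset.range R) (t := P ×ˢ F) (f := fun r => (f r, v r (f r)))
    (by rw [Finset.card_product, Finset.card_range]; exact hR) (by
      intro r hr
      rw [Finset.mem_coe, Finset.mem_range] at hr
      rw [Finset.mem_coe, Finset.mem_product]
      exact ⟨hf1 r hr, hf2 r hr⟩)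
  rw [Finset.mem_range] at hr hr'
  rw [Prod.mk.injEq] at he
  have h1 := he.2
  rw [← he.1] at h1
  exact hinj (f r) (hf1 r hr) r hr r' hr' hne h1

/-- labels near a given label -/
theorem lab1 (q0 R a z : ℕ) (ha : a < q0) (hz : q0 * R ≤ z) :
    ∃ g : ℕ → ℕ → ℕ, (∀ r < R, g r a = z) ∧
      (∀ r < R, ∀ i j, i < j → j < q0 → g r i < g r j) ∧
      (∀ r < R, ∀ i < q0, z ≤ g r i + q0 * R ∧ g r i ≤ z + q0 * R) ∧
      (∀ r < R, ∀ r' < R, r ≠ r' → ∀ i < q0, i ≠ a → g r i ≠ g r' i) := by
  have hb : ∀ r < R, ∀ i < q0, (r + 1) * i ≤ q0 * R := by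
    intro r hr i hi
    rw [mul_comm q0]
    exact Nat.mul_le_mul (by omega) hi.le
  refine ⟨fun r i => z + (r + 1) * i - (r + 1) * a, ?_, ?_, ?_, ?_⟩
  · intro r _
    simp only
    omega
  · intro r hr i j hij hj
    have h1 := hb r hr a ha
    have h2 : (r + 1) * i < (r + 1) * j := Nat.mul_lt_mul_of_pos_left hij (by omega)
    simp only
    omega
  · intro r hr i hi
    have h1 := hb r hr a ha
    have h2 := hb r hr i hi
    simp only
    omega
  · intro r hr r' hr' hne i hi hia he
    have h1 := hb r hr a ha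
    have h2 := hb r' hr' a ha
    simp only at he
    have h3 : (r + 1) * i + (r' + 1) * a = (r' + 1) * i + (r + 1) * a := by omega
    have h4 : ((r : ℤ) - r') * ((i : ℤ) - a) = 0 := by
      have h5 : (((r + 1) * i + (r' + 1) * a : ℕ) : ℤ) = (((r' + 1) * i + (r + 1) * a : ℕ) : ℤ) := by
        rw [h3]
      push_cast at h5
      linarith
    rcases mul_eq_zero.mp h4 with h5 | h5
    · exact hne (by omega)
    · exact hia (by omega)

/-- properties of the two families of labels, over the integers -/
def LabZ (q R a c z1 z2 K E : ℤ) (G G' : ℤ → ℤ → ℤ) : Prop :=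
  (∀ r, G r a = z2 ∧ G' r a = z1 ∧ G r c = G' r c) ∧
  (∀ r, 0 ≤ r → ∀ i j, i < j → G r i < G r j ∧ G' r i < G' r j) ∧
  (∀ r r', 0 ≤ r → 0 ≤ r' → r ≠ r' → ∀ i, i ≠ a → G r i ≠ G r' i ∧ G' r i ≠ G' r' i) ∧
  (∀ r, 0 ≤ r → ∀ i, i ≠ c → G r i ≠ G' r i) ∧
  (∀ r, 0 ≤ r → r < R → ∀ i, |i - a| ≤ q → |i - c| ≤ q → |c - a| ≤ q →
    |G r i - z2| ≤ q * R * E ∧ |G' r i - z2| ≤ q * R * (E + 1) + K)

theorem lab2Z_lt (q R a c z1 z2 K E : ℤ) (hac : a < c) (hz : z1 ≠ z2) (hK1 : z1 ≤ z2 + K)
    (hK2 : z2 ≤ z1 + K) (hE : K + 2 ≤ E) : ∃ G G' : ℤ → ℤ → ℤ, LabZ q R a c z1 z2 K E G G' := by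
  have hK0 : 0 ≤ K := by omega
  refine ⟨fun r i => z2 + (i - a) * (r + 1) * E, fun r i => if i < c then z1 + (i - a) * (r + 1)
    else z2 + (c - a) * (r + 1) * E + (i - c) * (r + 1), ?_, ?_, ?_, ?_, ?_⟩
  · intro r
    simp [hac]
  · intro r hr i j hij
    have h1 : 0 < (j - i) * (r + 1) := mul_pos (by omega) (by omega)
    refine ⟨?_, ?_⟩
    · have h2 : 0 < (j - i) * (r + 1) * E := mul_pos h1 (by omega)
      simp only
      linarith
    · simp only
      by_cases hj : j < c
      · rw [if_pos hj, if_pos (by omega)]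
        linarith
      · rw [if_neg hj]
        by_cases hi : i < c
        · rw [if_pos hi]
          have h3 : 0 ≤ (j - c) * (r + 1) := mul_nonneg (by omega) (by omega)
          have h4 : 0 ≤ (c - i - 1) * (r + 1) := mul_nonneg (by omega) (by omega)
          have h5 : 1 ≤ (c - a) * (r + 1) := by nlinarith
          have h6 : (K + 1) * 1 ≤ (E - 1) * ((c - a) * (r + 1)) :=
            mul_le_mul (by omega) h5 (by omega) (by omega)
          nlinarith
        · rw [if_neg hi]
          linarith
  · intro r r' hr hr' hne i hi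
    refine ⟨?_, ?_⟩
    · simp only
      intro h
      have h1 : (i - a) * (r - r') * E = 0 := by linarith
      rcases mul_eq_zero.mp h1 with h2 | h2
      · rcases mul_eq_zero.mp h2 with h3 | h3
        · exact hi (by omega)
        · exact hne (by omega)
      · omega
    · simp only
      intro h
      by_cases hc : i < c
      · rw [if_pos hc, if_pos hc] at h
        have h1 : (i - a) * (r - r') = 0 := by linarith
        rcases mul_eq_zero.mp h1 with h3 | h3
        · exact hi (by omega)
        · exact hne (by omega)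
      · rw [if_neg hc, if_neg hc] at h
        have h1 : ((c - a) * E + (i - c)) * (r - r') = 0 := by linarith
        have h2 : 0 < (c - a) * E := mul_pos (by omega) (by omega)
        rcases mul_eq_zero.mp h1 with h3 | h3
        · omega
        · exact hne (by omega)
  · intro r hr i hi
    simp only
    intro h
    by_cases hc : i < c
    · rw [if_pos hc] at h
      rcases lt_trichotomy i a with h1 | h1 | h1
      · have h5 : 1 ≤ (a - i) * (r + 1) := by nlinarith
        have h6 : (K + 1) * 1 ≤ (E - 1) * ((a - i) * (r + 1)) :=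
          mul_le_mul (by omega) h5 (by omega) (by omega)
        nlinarith
      · subst h1
        simp at h
        exact hz h.symm
      · have h5 : 1 ≤ (i - a) * (r + 1) := by nlinarith
        have h6 : (K + 1) * 1 ≤ (E - 1) * ((i - a) * (r + 1)) :=
          mul_le_mul (by omega) h5 (by omega) (by omega)
        nlinarith
    · rw [if_neg hc] at h
      have h5 : 1 ≤ (i - c) * (r + 1) := by nlinarith [show 1 ≤ i - c by omega]
      have h6 : (K + 1) * 1 ≤ (E - 1) * ((i - c) * (r + 1)) :=
        mul_le_mul (by omega) h5 (by omega) (by omega)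
      nlinarith
  · intro r hr hrR i hi hic hca
    have hE0 : 0 ≤ E := by omega
    have hq : 0 ≤ q := (abs_nonneg _).trans hi
    have h1 : ∀ x : ℤ, |x| ≤ q → |x * (r + 1)| ≤ q * R := by
      intro x hx
      rw [abs_mul]
      exact mul_le_mul hx (by rw [abs_of_nonneg (by omega)]; omega) (abs_nonneg _) hq
    have h2 : ∀ x : ℤ, |x| ≤ q → |x * (r + 1) * E| ≤ q * R * E := by
      intro x hx
      rw [abs_mul, abs_of_nonneg hE0]
      exact mul_le_mul_of_nonneg_right (h1 x hx) hE0
    have hqR : 0 ≤ q * R := (abs_nonneg _).trans (h1 _ hi)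
    refine ⟨?_, ?_⟩
    · simp only
      rw [add_sub_cancel_left]
      exact h2 _ hi
    · simp only
      by_cases hc : i < c
      · rw [if_pos hc]
        have h3 := abs_le.mp (h1 _ hi)
        have h4 : q * R * (E + 1) = q * R * E + q * R := by ring
        have h5 : 0 ≤ q * R * E := mul_nonneg hqR hE0
        rw [abs_le]
        constructor <;> linarith [h3.1, h3.2]
      · rw [if_neg hc]
        have h3 := abs_le.mp (h1 _ hic)
        have h4 := abs_le.mp (h2 _ hca)
        have h5 : q * R * (E + 1) = q * R * E + q * R := by ring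
        rw [abs_le]
        constructor <;> linarith [h3.1, h3.2, h4.1, h4.2]

theorem lab2Z (q R a c z1 z2 K E : ℤ) (hac : a ≠ c) (hz : z1 ≠ z2) (hK1 : z1 ≤ z2 + K)
    (hK2 : z2 ≤ z1 + K) (hE : K + 2 ≤ E) : ∃ G G' : ℤ → ℤ → ℤ, LabZ q R a c z1 z2 K E G G' := by
  rcases lt_or_gt_of_ne hac with h | h
  · exact lab2Z_lt q R a c z1 z2 K E h hz hK1 hK2 hE
  · obtain ⟨G, G', h1, h2, h3, h4, h5⟩ := lab2Z_lt q R (-a) (-c) (-z1) (-z2) K E (by omega)
      (by omega) (by omega) (by omega) hE
    refine ⟨fun r i => -G r (-i), fun r i => -G' r (-i), ?_, ?_, ?_, ?_, ?_⟩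
    · intro r
      obtain ⟨e1, e2, e3⟩ := h1 r
      simp only
      omega
    · intro r hr i j hij
      have := h2 r hr (-j) (-i) (by omega)
      simp only
      omega
    · intro r r' hr hr' hne i hi
      have := h3 r r' hr hr' hne (-i) (by omega)
      simp only
      omega
    · intro r hr i hi
      have := h4 r hr (-i) (by omega)
      simp only
      omega
    · intro r hr hrR i hi hic hca
      have := h5 r hr hrR (-i) (by rw [← abs_neg]; convert hi using 2; ring)
        (by rw [← abs_neg]; convert hic using 2; ring) (by rw [← abs_neg]; convert hca using 2; ring)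
      simp only
      refine ⟨?_, ?_⟩
      · rw [← abs_neg]
        convert this.1 using 2
        ring
      · rw [← abs_neg]
        convert this.2 using 2
        ring

/-- labels for two relators with a common new label -/
theorem lab2 (q0 R a c z1 z2 K : ℕ) (ha : a < q0) (hc : c < q0) (hac : a ≠ c) (hz : z1 ≠ z2)
    (hK1 : z1 ≤ z2 + K) (hK2 : z2 ≤ z1 + K) (hroom : q0 * R * (K + 3) + K ≤ z2) :
    ∃ g g' : ℕ → ℕ → ℕ, (∀ r < R, g r a = z2 ∧ g' r a = z1 ∧ g r c = g' r c) ∧
      (∀ r < R, ∀ i j, i < j → j < q0 → g r i < g r j ∧ g' r i < g' r j) ∧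
      (∀ r < R, ∀ i < q0, g r i ≤ z2 + (q0 * R * (K + 3) + K) ∧
        g' r i ≤ z2 + (q0 * R * (K + 3) + K)) ∧
      (∀ r < R, ∀ r' < R, r ≠ r' → ∀ i < q0, i ≠ a → g r i ≠ g r' i ∧ g' r i ≠ g' r' i) ∧
      (∀ r < R, ∀ i < q0, i ≠ c → g r i ≠ g' r i) := by
  obtain ⟨G, G', h1, h2, h3, h4, h5⟩ := lab2Z q0 R a c z1 z2 K (K + 2) (by omega) (by omega)
    (by omega) (by omega) le_rfl
  have hb : ∀ r < R, ∀ i < q0, 0 ≤ G r i ∧ 0 ≤ G' r i ∧
      G r i ≤ z2 + ((q0 * R * (K + 3) + K : ℕ) : ℤ) ∧
      G' r i ≤ z2 + ((q0 * R * (K + 3) + K : ℕ) : ℤ) := by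
    intro r hr i hi
    have h6 := h5 r (by omega) (by omega) i (abs_le.mpr ⟨by omega, by omega⟩)
      (abs_le.mpr ⟨by omega, by omega⟩) (abs_le.mpr ⟨by omega, by omega⟩)
    have h7 := abs_le.mp h6.1
    have h8 := abs_le.mp h6.2
    have h9 : ((q0 * R * (K + 3) + K : ℕ) : ℤ) = (q0 : ℤ) * R * (K + 2 + 1) + K := by
      push_cast
      ring
    have h10 : (q0 : ℤ) * R * (K + 2) ≤ (q0 : ℤ) * R * (K + 2 + 1) + K := by
      have : 0 ≤ (q0 : ℤ) * R := by positivity
      nlinarith
    have h11 : ((q0 * R * (K + 3) + K : ℕ) : ℤ) ≤ z2 := by exact_mod_cast hroom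
    rw [h9] at h11 ⊢
    refine ⟨?_, ?_, ?_, ?_⟩ <;> linarith [h7.1, h7.2, h8.1, h8.2]
  refine ⟨fun r i => (G r i).toNat, fun r i => (G' r i).toNat, ?_, ?_, ?_, ?_, ?_⟩
  · intro r hr
    obtain ⟨e1, e2, e3⟩ := h1 r
    simp only
    rw [e1, e2, e3]
    simp
  · intro r hr i j hij hj
    have e1 := h2 r (by omega) i j (by omega)
    have e2 := hb r hr i (by omega)
    have e3 := hb r hr j hj
    simp only
    omega
  · intro r hr i hi
    have e2 := hb r hr i hi
    simp only
    omega
  · intro r hr r' hr' hne i hi hia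
    have e1 := h3 r r' (by omega) (by omega) (by omega) i (by omega)
    have e2 := hb r hr i hi
    have e3 := hb r' hr' i hi
    simp only
    omega
  · intro r hr i hi hic
    have e1 := h4 r (by omega) i (by omega)
    have e2 := hb r hr i hi
    simp only
    omega

end Pool.Agent.TH468.EC
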